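import Pool.Agent.NPC.Classes

/-!
# Rationalizability of sets of stable roommates matchings: definitions
-/

set_option autoImplicit false

namespace Pool.Agent.Y669.SR

open Pool.Agent.NPC

/-- An instance of the stable roommates problem with the agents `0, ..., n - 1` (complete preference
lists without ties): every agent `a` orders all the other agents strictly and linearly. -/
structure Inst (n : ℕ) where
  /-- the agent `a` strictly prefers `b` to `c` -/
  prefers : Fin n → Fin n → Fin n → Prop
  irrefl : ∀ a b, b ≠ a → ¬ prefers a b b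
  trans : ∀ a b c d, b ≠ a → c ≠ a → d ≠ a → prefers a b c → prefers a c d → prefers a b d
  total : ∀ a b c, b ≠ a → c ≠ a → b ≠ c → prefers a b c ∨ prefers a c b

/-- The list of pairs `M` is a matching of the agents `0, ..., n - 1`: no agent occurs twice. -/
def IsMatching (n : ℕ) (M : List (ℕ × ℕ)) : Prop :=
  (∀ p ∈ M, p.1 < n ∧ p.2 < n) ∧ (M.flatMap fun p => [p.1, p.2]).Nodup

/-- `{a, b}` is a pair of the matching `M`. -/
def Joined (M : List (ℕ × ℕ)) (a b : ℕ) : Prop := (a, b) ∈ M ∨ (b, a) ∈ M

/-- The agent `a` is unmatched in `M` or prefers `b` to its partner in `M`. -/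
def Inst.Wants {n : ℕ} (I : Inst n) (M : List (ℕ × ℕ)) (a b : Fin n) : Prop :=
  ∀ c : Fin n, Joined M a c → I.prefers a b c

/-- The matching `M` is stable: no pair `{a, b}` outside of `M` blocks it. -/
def Inst.Stable {n : ℕ} (I : Inst n) (M : List (ℕ × ℕ)) : Prop :=
  ∀ a b : Fin n, a ≠ b → ¬ Joined M a b → ¬ (I.Wants M a b ∧ I.Wants M b a)

/-- SR-RATIONALIZABILITY. The input is the number `n` of the agents in unary and a list of matchings,
each of them given as a list of pairs. The question is whether all the matchings are stable in one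
and the same instance. -/
def Rationalizable (x : List Unit × List (List (ℕ × ℕ))) : Prop :=
  (∀ M ∈ x.2, IsMatching x.1.length M) ∧ ∃ I : Inst x.1.length, ∀ M ∈ x.2, I.Stable M

/-- Every agent is matched. -/
def Perfect (n : ℕ) (M : List (ℕ × ℕ)) : Prop := ∀ a < n, ∃ b, Joined M a b

/-- The matchings `M` and `M'` have no common pair. -/
def NoCommonPair (M M' : List (ℕ × ℕ)) : Prop := ∀ a b, Joined M a b → ¬ Joined M' a b

/-- The input consists of three pairwise disjoint perfect matchings. -/
def ThreePerfect (x : List Unit × List (List (ℕ × ℕ))) : Prop :=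
  ∃ M₁ M₂ M₃, x.2 = [M₁, M₂, M₃] ∧ (∀ M ∈ x.2, IsMatching x.1.length M ∧ Perfect x.1.length M) ∧
    NoCommonPair M₁ M₂ ∧ NoCommonPair M₁ M₃ ∧ NoCommonPair M₂ M₃

/-- SR-RATIONALIZABILITY for three pairwise disjoint perfect matchings. -/
def Rationalizable3 (x : List Unit × List (List (ℕ × ℕ))) : Prop :=
  ThreePerfect x ∧ Rationalizable x

end Pool.Agent.Y669.SR
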