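import Mathlib
import Pool.Agent.Y669.SR.Defs

/-!
# Three disjoint perfect matchings: rationalizability in terms of 2-colourings of the bichromatic cycles
-/

set_option autoImplicit false

namespace Pool.Agent.Y669.SR

/-- the list of the pairs `(a, σ a)`, `a < σ a`, `a < n` -/
def pairs (n : ℕ) (σ : ℕ → ℕ) : List (ℕ × ℕ) :=
  ((List.range n).filter (fun a => decide (a < σ a))).map (fun a => (a, σ a))

/-- `σ` is an involution without fixed points of the numbers below `n` -/
def Inv (n : ℕ) (σ : ℕ → ℕ) : Prop := ∀ a < n, σ a < n ∧ σ a ≠ a ∧ σ (σ a) = a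

theorem mem_pairs {n : ℕ} {σ : ℕ → ℕ} {a b : ℕ} :
    (a, b) ∈ pairs n σ ↔ a < n ∧ a < σ a ∧ b = σ a := by
  unfold pairs
  simp only [List.mem_map, List.mem_filter, List.mem_range, decide_eq_true_eq, Prod.mk.injEq]
  constructor
  · rintro ⟨c, ⟨h1, h2⟩, rfl, rfl⟩
    exact ⟨h1, h2, rfl⟩
  · rintro ⟨h1, h2, rfl⟩
    exact ⟨a, ⟨h1, h2⟩, rfl, rfl⟩

theorem joined_pairs {n : ℕ} {σ : ℕ → ℕ} (h : Inv n σ) {a b : ℕ} :
    Joined (pairs n σ) a b ↔ a < n ∧ b = σ a := by
  unfold Joined
  rw [mem_pairs, mem_pairs]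
  constructor
  · rintro (⟨h1, h2, rfl⟩ | ⟨h1, h2, rfl⟩)
    · exact ⟨h1, rfl⟩
    · exact ⟨(h b h1).1, ((h b h1).2.2).symm⟩
  · rintro ⟨h1, rfl⟩
    obtain ⟨h2, h3, h4⟩ := h a h1
    rcases lt_or_gt_of_ne h3 with h5 | h5
    · exact Or.inr ⟨h2, by rw [h4]; exact h5, h4.symm⟩
    · exact Or.inl ⟨h1, h5, rfl⟩

theorem isMatching_pairs {n : ℕ} {σ : ℕ → ℕ} (h : Inv n σ) : IsMatching n (pairs n σ) := by
  refine ⟨?_, ?_⟩
  · rintro ⟨a, b⟩ hp
    obtain ⟨h1, h2, rfl⟩ := mem_pairs.1 hp
    exact ⟨h1, (h a h1).1⟩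
  · unfold pairs
    rw [List.flatMap_map, List.nodup_flatMap]
    refine ⟨?_, ?_⟩
    · intro a ha
      rw [List.mem_filter, List.mem_range] at ha
      have := (h a ha.1).2.1
      simp only [List.nodup_cons, List.mem_singleton, List.not_mem_nil, not_false_eq_true,
        List.nodup_nil, and_true]
      exact fun h' => this h'.symm
    · have hn : ((List.range n).filter (fun a => decide (a < σ a))).Nodup :=
        List.nodup_range.filter _
      rw [List.nodup_iff_pairwise_ne] at hn
      refine hn.imp_of_mem ?_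
      intro a b ha hb hab
      rw [List.mem_filter, List.mem_range, decide_eq_true_eq] at ha hb
      have h1 := h a ha.1
      have h2 := h b hb.1
      rw [Function.onFun, List.disjoint_left]
      intro c hc hc'
      simp only [List.mem_cons, List.not_mem_nil, or_false] at hc hc'
      rcases hc with rfl | rfl <;> rcases hc' with h3 | h3
      · exact hab h3
      · rw [h3] at ha
        rw [h2.2.2] at ha
        omega
      · rw [← h3] at hb
        rw [h1.2.2] at hb
        omega
      · apply hab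
        rw [← h1.2.2, h3, h2.2.2]

theorem perfect_pairs {n : ℕ} {σ : ℕ → ℕ} (h : Inv n σ) : Perfect n (pairs n σ) :=
  fun a ha => ⟨σ a, (joined_pairs h).2 ⟨ha, rfl⟩⟩

theorem noCommon_pairs {n : ℕ} {σ τ : ℕ → ℕ} (h : Inv n σ) (h' : Inv n τ)
    (hd : ∀ a < n, σ a ≠ τ a) : NoCommonPair (pairs n σ) (pairs n τ) := by
  intro a b h1 h2
  rw [joined_pairs h] at h1
  rw [joined_pairs h'] at h2
  exact hd a h1.1 (h1.2.symm.trans h2.2)

/-- counting: both involutions exchange the two classes of `x` -/
theorem flip_of {V : Type} [Fintype V] (s t : V → V) (hs : ∀ v, s (s v) = v)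
    (ht : ∀ v, t (t v) = v) (x : V → Bool) (h1 : ∀ v, x v = true ∨ x (s v) = true)
    (h2 : ∀ v, x v = false ∨ x (t v) = false) : ∀ v, x (s v) = !x v ∧ x (t v) = !x v := by
  classical
  let F : Finset V := Finset.univ.filter (fun v => x v = false)
  let T : Finset V := Finset.univ.filter (fun v => x v = true)
  have hsi : Function.Injective s := Function.Involutive.injective hs
  have hti : Function.Injective t := Function.Involutive.injective ht
  have hsF : F.image s ⊆ T := by
    intro v hv
    rw [Finset.mem_image] at hv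
    obtain ⟨u, hu, rfl⟩ := hv
    rw [Finset.mem_filter] at hu
    rw [Finset.mem_filter]
    refine ⟨Finset.mem_univ _, ?_⟩
    rcases h1 u with h | h
    · rw [hu.2] at h; exact absurd h (by decide)
    · exact h
  have htT : T.image t ⊆ F := by
    intro v hv
    rw [Finset.mem_image] at hv
    obtain ⟨u, hu, rfl⟩ := hv
    rw [Finset.mem_filter] at hu
    rw [Finset.mem_filter]
    refine ⟨Finset.mem_univ _, ?_⟩
    rcases h2 u with h | h
    · rw [hu.2] at h; exact absurd h (by decide)
    · exact h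
  have c1 := Finset.card_le_card hsF
  have c2 := Finset.card_le_card htT
  rw [Finset.card_image_of_injective _ hsi] at c1
  rw [Finset.card_image_of_injective _ hti] at c2
  have e1 : F.image s = T := Finset.eq_of_subset_of_card_le hsF (by
    rw [Finset.card_image_of_injective _ hsi]; omega)
  have e2 : T.image t = F := Finset.eq_of_subset_of_card_le htT (by
    rw [Finset.card_image_of_injective _ hti]; omega)
  intro v
  constructor
  · cases hv : x v with
    | false =>
      rcases h1 v with h | h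
      · rw [hv] at h; exact absurd h (by decide)
      · rw [h]; rfl
    | true =>
      have : v ∈ F.image s := by rw [e1, Finset.mem_filter]; exact ⟨Finset.mem_univ _, hv⟩
      rw [Finset.mem_image] at this
      obtain ⟨u, hu, rfl⟩ := this
      rw [hs]
      rw [Finset.mem_filter] at hu
      rw [hu.2]; rfl
  · cases hv : x v with
    | true =>
      rcases h2 v with h | h
      · rw [hv] at h; exact absurd h (by decide)
      · rw [h]; rfl
    | false =>
      have : v ∈ T.image t := by rw [e2, Finset.mem_filter]; exact ⟨Finset.mem_univ _, hv⟩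
      rw [Finset.mem_image] at this
      obtain ⟨u, hu, rfl⟩ := this
      rw [ht]
      rw [Finset.mem_filter] at hu
      rw [hu.2]; rfl

/-- the 2-colourings `x 0, x 1, x 2` of the bichromatic cycles of the colours `c` and `c + 1` -/
def Colour (n : ℕ) (σ : Fin 3 → ℕ → ℕ) (x : Fin 3 → ℕ → Bool) : Prop :=
  (∀ c, ∀ a < n, x c (σ c a) = !x c a ∧ x c (σ (c + 1) a) = !x c a) ∧
    ∀ a < n, ¬ (x 0 a = x 1 a ∧ x 1 a = x 2 a)

/-- the number of the colours preferred to the colour `c` by an agent with the bits `x` -/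
def place (x : Fin 3 → Bool) (c : Fin 3) : ℕ :=
  (if x c = true then 0 else 1) + (if x (c + 2) = true then 1 else 0)

theorem place_lt_iff : ∀ x : Fin 3 → Bool, ¬ (x 0 = x 1 ∧ x 1 = x 2) → ∀ c : Fin 3,
    (place x c < place x (c + 1) ↔ x c = true) ∧ (place x (c + 1) < place x c ↔ x c = false) ∧
      place x c ≤ 2 := by
  decide

theorem place_inj : ∀ x : Fin 3 → Bool, ¬ (x 0 = x 1 ∧ x 1 = x 2) → ∀ c d : Fin 3,
    place x c = place x d → c = d := by
  decide

/-- three involutions without fixed points and without common pairs -/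
def Good (n : ℕ) (σ : Fin 3 → ℕ → ℕ) : Prop :=
  (∀ c, Inv n (σ c)) ∧ ∀ c, ∀ a < n, σ c a ≠ σ (c + 1) a

theorem Good.ne {n : ℕ} {σ : Fin 3 → ℕ → ℕ} (h : Good n σ) {c d : Fin 3} (hcd : c ≠ d) {a : ℕ}
    (ha : a < n) : σ c a ≠ σ d a := by
  have h0 := h.2 0 a ha
  have h1 := h.2 1 a ha
  have h2 := h.2 2 a ha
  have e0 : (0 : Fin 3) + 1 = 1 := rfl
  have e1 : (1 : Fin 3) + 1 = 2 := rfl
  have e2 : (2 : Fin 3) + 1 = 0 := rfl
  rw [e0] at h0
  rw [e1] at h1
  rw [e2] at h2
  fin_cases c <;> fin_cases d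
  · exact absurd rfl hcd
  · exact h0
  · exact fun h => h2 h.symm
  · exact fun h => h0 h.symm
  · exact absurd rfl hcd
  · exact h1
  · exact h2
  · exact fun h => h1 h.symm
  · exact absurd rfl hcd

theorem colour_of_inst {n : ℕ} {σ : Fin 3 → ℕ → ℕ} (h : Good n σ) (I : Inst n)
    (hI : ∀ c, I.Stable (pairs n (σ c))) : ∃ x, Colour n σ x := by
  classical
  let s : Fin 3 → Fin n → Fin n := fun c a => ⟨σ c a, (h.1 c a a.2).1⟩
  have hs : ∀ c a, s c (s c a) = a := fun c a => Fin.ext (h.1 c a a.2).2.2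
  have hsne : ∀ c a, s c a ≠ a := fun c a h' => (h.1 c a a.2).2.1 (congrArg Fin.val h')
  have hne : ∀ {c d : Fin 3}, c ≠ d → ∀ a, s c a ≠ s d a := fun hcd a h' =>
    h.ne hcd a.2 (congrArg Fin.val h')
  have hwant : ∀ c (a b : Fin n), I.prefers a b (s c a) → I.Wants (pairs n (σ c)) a b := by
    intro c a b hab e he
    rw [joined_pairs (h.1 c)] at he
    have : e = s c a := Fin.ext he.2
    rw [this]
    exact hab
  have hnj : ∀ {c d : Fin 3}, c ≠ d → ∀ a : Fin n, ¬ Joined (pairs n (σ c)) a (s d a) := by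
    intro c d hcd a h'
    rw [joined_pairs (h.1 c)] at h'
    exact h.ne hcd a.2 h'.2.symm
  -- no block
  have hblock : ∀ {c d : Fin 3}, c ≠ d → ∀ a : Fin n,
      ¬ (I.prefers a (s d a) (s c a) ∧ I.prefers (s d a) a (s c (s d a))) := by
    intro c d hcd a h'
    exact hI c a (s d a) (fun h'' => hsne d a h''.symm) (hnj hcd a)
      ⟨hwant c a _ h'.1, hwant c _ _ h'.2⟩
  have htot : ∀ {c d : Fin 3}, c ≠ d → ∀ a : Fin n,
      ¬ I.prefers a (s c a) (s d a) → I.prefers a (s d a) (s c a) := by
    intro c d hcd a h'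
    rcases I.total a (s c a) (s d a) (hsne c a) (hsne d a) (hne hcd a) with h'' | h''
    · exact absurd h'' h'
    · exact h''
  have hc1 : ∀ c : Fin 3, c ≠ c + 1 := by decide
  let y : Fin 3 → Fin n → Bool := fun c a => decide (I.prefers a (s c a) (s (c + 1) a))
  have hflip : ∀ c a, y c (s (c + 1) a) = !y c a ∧ y c (s c a) = !y c a := by
    intro c
    refine flip_of (s (c + 1)) (s c) (hs _) (hs _) (y c) ?_ ?_
    · intro v
      by_contra hcon
      push Not at hcon
      obtain ⟨h1, h2⟩ := hcon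
      simp only [y, ne_eq, decide_eq_true_eq] at h1 h2
      have h3 := htot (hc1 c) _ h1
      have h4 := htot (hc1 c) _ h2
      rw [hs] at h4
      exact hblock (hc1 c) v ⟨h3, h4⟩
    · intro v
      by_contra hcon
      push Not at hcon
      obtain ⟨h1, h2⟩ := hcon
      simp only [y, ne_eq, decide_eq_false_iff_not, not_not] at h1 h2
      rw [hs] at h2
      exact hblock (hc1 c).symm v ⟨h1, h2⟩
  have hnae : ∀ a, ¬ (y 0 a = y 1 a ∧ y 1 a = y 2 a) := by
    rintro a ⟨h1, h2⟩
    have e0 : (0 : Fin 3) + 1 = 1 := rfl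
    have e1 : (1 : Fin 3) + 1 = 2 := rfl
    have e2 : (2 : Fin 3) + 1 = 0 := rfl
    have n01 : (0 : Fin 3) ≠ 1 := by decide
    have n12 : (1 : Fin 3) ≠ 2 := by decide
    have n20 : (2 : Fin 3) ≠ 0 := by decide
    cases hv : y 0 a with
    | true =>
      rw [hv] at h1
      rw [← h1] at h2
      have p0 : I.prefers a (s 0 a) (s 1 a) := by
        have := hv
        simp only [y, decide_eq_true_eq, e0] at this
        exact this
      have p1 : I.prefers a (s 1 a) (s 2 a) := by
        have := h1.symm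
        simp only [y, decide_eq_true_eq, e1] at this
        exact this
      have p2 : I.prefers a (s 2 a) (s 0 a) := by
        have := h2.symm
        simp only [y, decide_eq_true_eq, e2] at this
        exact this
      have q := I.trans a _ _ _ (hsne 0 a) (hsne 1 a) (hsne 2 a) p0 p1
      have q' := I.trans a _ _ _ (hsne 0 a) (hsne 2 a) (hsne 0 a) q p2
      exact I.irrefl a _ (hsne 0 a) q'
    | false =>
      rw [hv] at h1
      rw [← h1] at h2
      have p0 : ¬ I.prefers a (s 0 a) (s 1 a) := by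
        have := hv
        simp only [y, decide_eq_false_iff_not, e0] at this
        exact this
      have p1 : ¬ I.prefers a (s 1 a) (s 2 a) := by
        have := h1.symm
        simp only [y, decide_eq_false_iff_not, e1] at this
        exact this
      have p2 : ¬ I.prefers a (s 2 a) (s 0 a) := by
        have := h2.symm
        simp only [y, decide_eq_false_iff_not, e2] at this
        exact this
      have r0 := htot n01 a p0
      have r1 := htot n12 a p1
      have r2 := htot n20 a p2
      have q := I.trans a _ _ _ (hsne 2 a) (hsne 1 a) (hsne 0 a) r1 r0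
      have q' := I.trans a _ _ _ (hsne 2 a) (hsne 0 a) (hsne 2 a) q r2
      exact I.irrefl a _ (hsne 2 a) q'
  refine ⟨fun c a => if ha : a < n then y c ⟨a, ha⟩ else false, ?_, ?_⟩
  · intro c a ha
    have h1 := (h.1 c a ha).1
    have h2 := (h.1 (c + 1) a ha).1
    simp only [dif_pos ha, dif_pos h1, dif_pos h2]
    exact ⟨(hflip c ⟨a, ha⟩).2, (hflip c ⟨a, ha⟩).1⟩
  · intro a ha
    simp only [dif_pos ha]
    exact hnae ⟨a, ha⟩

/-- the rank of `b` in the preference list of `a` -/
def rk (σ : Fin 3 → ℕ → ℕ) (x : Fin 3 → ℕ → Bool) (a b : ℕ) : ℕ :=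
  if b = σ 0 a then place (fun c => x c a) 0 else if b = σ 1 a then place (fun c => x c a) 1
  else if b = σ 2 a then place (fun c => x c a) 2 else b + 3

theorem rk_partner {n : ℕ} {σ : Fin 3 → ℕ → ℕ} (h : Good n σ) (x : Fin 3 → ℕ → Bool) {a : ℕ}
    (ha : a < n) (c : Fin 3) : rk σ x a (σ c a) = place (fun i => x i a) c := by
  unfold rk
  fin_cases c
  · simp
  · have h1 : σ 1 a ≠ σ 0 a := h.ne (by decide) ha
    simp [h1]
  · have h1 : σ 2 a ≠ σ 0 a := h.ne (by decide) ha
    have h2 : σ 2 a ≠ σ 1 a := h.ne (by decide) ha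
    simp [h1, h2]

theorem rk_other {σ : Fin 3 → ℕ → ℕ} (x : Fin 3 → ℕ → Bool) {a b : ℕ} (hb : ∀ c, b ≠ σ c a) :
    rk σ x a b = b + 3 := by
  unfold rk
  rw [if_neg (hb 0), if_neg (hb 1), if_neg (hb 2)]

theorem inst_of_colour {n : ℕ} {σ : Fin 3 → ℕ → ℕ} (h : Good n σ) {x : Fin 3 → ℕ → Bool}
    (hx : Colour n σ x) : ∃ I : Inst n, ∀ c, I.Stable (pairs n (σ c)) := by
  classical
  have hinj : ∀ a < n, ∀ b c, b ≠ c → rk σ x a b ≠ rk σ x a c := by
    intro a ha b c hbc he
    by_cases hb : ∃ i, b = σ i a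
    · obtain ⟨i, rfl⟩ := hb
      by_cases hc : ∃ j, c = σ j a
      · obtain ⟨j, rfl⟩ := hc
        rw [rk_partner h x ha, rk_partner h x ha] at he
        exact hbc (by rw [place_inj (fun i => x i a) (hx.2 a ha) i j he])
      · push Not at hc
        rw [rk_partner h x ha, rk_other x hc] at he
        have := (place_lt_iff (fun i => x i a) (hx.2 a ha) i).2.2
        omega
    · push Not at hb
      by_cases hc : ∃ j, c = σ j a
      · obtain ⟨j, rfl⟩ := hc
        rw [rk_partner h x ha, rk_other x hb] at he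
        have := (place_lt_iff (fun i => x i a) (hx.2 a ha) j).2.2
        omega
      · push Not at hc
        rw [rk_other x hb, rk_other x hc] at he
        omega
  refine ⟨⟨fun a b c => rk σ x a b < rk σ x a c, fun a b _ => lt_irrefl _,
    fun a b c d _ _ _ h1 h2 => lt_trans h1 h2, fun a b c _ _ hbc => ?_⟩, ?_⟩
  · have := hinj a a.2 b c (fun h' => hbc (Fin.ext h'))
    omega
  · intro c a b hab hnj hw
    rw [joined_pairs (h.1 c)] at hnj
    have hbc : (b : ℕ) ≠ σ c a := fun h' => hnj ⟨a.2, h'⟩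
    have w1 : rk σ x a b < rk σ x a (σ c a) :=
      hw.1 ⟨σ c a, (h.1 c a a.2).1⟩ ((joined_pairs (h.1 c)).2 ⟨a.2, rfl⟩)
    have w2 : rk σ x b a < rk σ x b (σ c b) :=
      hw.2 ⟨σ c b, (h.1 c b b.2).1⟩ ((joined_pairs (h.1 c)).2 ⟨b.2, rfl⟩)
    rw [rk_partner h x a.2] at w1
    rw [rk_partner h x b.2] at w2
    have p1 := (place_lt_iff (fun i => x i a) (hx.2 a a.2) c).2.2
    by_cases hd : ∃ d, (b : ℕ) = σ d a
    · obtain ⟨d, hd⟩ := hd
      have hda : (a : ℕ) = σ d b := by rw [hd, (h.1 d a a.2).2.2]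
      have e1 : rk σ x a b = place (fun i => x i a) d := by
        rw [hd]; exact rk_partner h x a.2 d
      have e2 : rk σ x b a = place (fun i => x i b) d := by
        have := rk_partner h x b.2 d
        rw [← hda] at this
        exact this
      rw [e1] at w1
      rw [e2] at w2
      have hdc : d ≠ c := fun h' => hbc (by rw [hd, h'])
      have hcases : ∀ c d : Fin 3, d ≠ c → d = c + 1 ∨ c = d + 1 := by decide
      rcases hcases c d hdc with h3 | h3
      · rw [h3] at w1 w2 hd
        have f1 := (place_lt_iff (fun i => x i a) (hx.2 a a.2) c).2.1.1 w1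
        have f2 := (place_lt_iff (fun i => x i b) (hx.2 b b.2) c).2.1.1 w2
        have f3 := (hx.1 c a a.2).2
        rw [← hd] at f3
        rw [f1, f2] at f3
        exact absurd f3 (by decide)
      · rw [h3] at w1 w2
        have f1 := (place_lt_iff (fun i => x i a) (hx.2 a a.2) d).1.1 w1
        have f2 := (place_lt_iff (fun i => x i b) (hx.2 b b.2) d).1.1 w2
        have f3 := (hx.1 d a a.2).1
        rw [← hd] at f3
        rw [f1, f2] at f3
        exact absurd f3 (by decide)
    · push Not at hd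
      rw [rk_other x hd] at w1
      omega

/-- **Theorem.** Three disjoint perfect matchings are stable in one and the same instance if and
only if the bichromatic cycles have suitable 2-colourings. -/
theorem rationalizable_iff {n : ℕ} {σ : Fin 3 → ℕ → ℕ} (h : Good n σ) :
    (∃ I : Inst n, ∀ c, I.Stable (pairs n (σ c))) ↔ ∃ x, Colour n σ x :=
  ⟨fun ⟨I, hI⟩ => colour_of_inst h I hI, fun ⟨_, hx⟩ => inst_of_colour h hx⟩

end Pool.Agent.Y669.SR
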