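import Mathlib

/-!
# The graph of the reduction, as an abstract graph with three involutions
-/

set_option autoImplicit false

namespace Pool.Agent.Y669.SR

/-- the three matchings inside the clause gadget (the vertices `0, ..., 5` have no internal partner
of the third kind) -/
def T0 : Fin 14 → Fin 14 := ![1, 0, 3, 2, 8, 11, 7, 6, 4, 10, 9, 5, 13, 12]
/-- second matching of the gadget -/
def T1 : Fin 14 → Fin 14 := ![13, 12, 10, 7, 5, 4, 9, 3, 11, 6, 2, 8, 1, 0]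
/-- third matching of the gadget -/
def T2 : Fin 14 → Fin 14 := ![0, 0, 0, 0, 0, 0, 13, 11, 10, 12, 8, 7, 9, 6]

theorem gk : ∀ a P0 P1 P2 : Bool, ¬ (a = P1 ∧ P1 = P1) → ¬ ((!a) = P0 ∧ P0 = P2) →
    ¬ (P0 = P1 ∧ P1 = P2) := by decide

theorem gadget_key (g : Fin 3 → Fin 14 → Bool) (h0 : ∀ k, g 0 (T0 k) = !g 0 k)
    (h0p : ∀ k, g 0 (T1 k) = !g 0 k) (h1 : ∀ k, g 1 (T1 k) = !g 1 k)
    (h1p : ∀ k, 6 ≤ k → g 1 (T2 k) = !g 1 k) (h2 : ∀ k, 6 ≤ k → g 2 (T2 k) = !g 2 k)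
    (h2p : ∀ k, g 2 (T0 k) = !g 2 k) (hn : ∀ k, ¬ (g 0 k = g 1 k ∧ g 1 k = g 2 k))
    (P0 P1 P2 : Bool) (e1_0 : g 1 0 = P0) (e1_2 : g 1 2 = P1) (e1_4 : g 1 4 = P2)
    (e2_0 : g 2 0 = P0) (e2_2 : g 2 2 = P1) (e2_4 : g 2 4 = P2) :
    ¬ (P0 = P1 ∧ P1 = P2) := by
  obtain ⟨a0, e0_0⟩ : ∃ a0, g 0 0 = a0 := ⟨_, rfl⟩
  obtain ⟨a1, e0_2⟩ : ∃ a1, g 0 2 = a1 := ⟨_, rfl⟩
  obtain ⟨a2, e0_4⟩ : ∃ a2, g 0 4 = a2 := ⟨_, rfl⟩
  have e0_3 : g 0 3 = !a1 := by
    have : g 0 3 = !g 0 2 := h0 2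
    rw [this, e0_2]
  have e0_7 : g 0 7 = a1 := by
    have : g 0 7 = !g 0 3 := h0p 3
    rw [this, e0_3]; simp
  have e0_6 : g 0 6 = !a1 := by
    have : g 0 6 = !g 0 7 := h0 7
    rw [this, e0_7]
  have e1_13 : g 1 13 = !P0 := by
    have : g 1 13 = !g 1 0 := h1 0
    rw [this, e1_0]
  have e1_6 : g 1 6 = P0 := by
    have : g 1 6 = !g 1 13 := h1p 13 (by decide)
    rw [this, e1_13]; simp
  have e2_8 : g 2 8 = !P2 := by
    have : g 2 8 = !g 2 4 := h2p 4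
    rw [this, e2_4]
  have e2_10 : g 2 10 = P2 := by
    have : g 2 10 = !g 2 8 := h2 8 (by decide)
    rw [this, e2_8]; simp
  have e2_9 : g 2 9 = !P2 := by
    have : g 2 9 = !g 2 10 := h2p 10
    rw [this, e2_10]
  have e2_12 : g 2 12 = P2 := by
    have : g 2 12 = !g 2 9 := h2 9 (by decide)
    rw [this, e2_9]; simp
  have e2_13 : g 2 13 = !P2 := by
    have : g 2 13 = !g 2 12 := h2p 12
    rw [this, e2_12]
  have e2_6 : g 2 6 = P2 := by
    have : g 2 6 = !g 2 13 := h2 13 (by decide)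
    rw [this, e2_13]; simp
  have n2 := hn 2
  have n6 := hn 6
  rw [e0_2, e1_2, e2_2] at n2
  rw [e0_6, e1_6, e2_6] at n6
  exact gk a1 P0 P1 P2 n2 n6

/-- the vertices: cells of the rows, and clause gadgets -/
abbrev V (m : ℕ) : Type := (Fin (3 * m) × Fin (3 * m) × Fin 6) ⊕ (Fin m × Fin 14)

/-- the slot of the position `p` of the clause `i` -/
def sl {m : ℕ} (i : Fin m) (p : Fin 3) : Fin (3 * m) := ⟨3 * i + p, by omega⟩

/-- the clause of a slot -/
def cl {m : ℕ} (s : Fin (3 * m)) : Fin m := ⟨s / 3, by omega⟩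

/-- the position of a slot -/
def ps {m : ℕ} (s : Fin (3 * m)) : Fin 3 := ⟨s % 3, by omega⟩

theorem sl_cl {m : ℕ} (s : Fin (3 * m)) : sl (cl s) (ps s) = s := by
  apply Fin.ext
  simp only [sl, cl, ps]
  omega

theorem cl_sl {m : ℕ} (i : Fin m) (p : Fin 3) : cl (sl i p) = i := by
  apply Fin.ext
  simp only [sl, cl]
  omega

theorem ps_sl {m : ℕ} (i : Fin m) (p : Fin 3) : ps (sl i p) = p := by
  apply Fin.ext
  simp only [sl, ps]
  omega

/-- the next slot -/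
def nx {m : ℕ} (s : Fin (3 * m)) : Fin (3 * m) :=
  ⟨if (s : ℕ) + 1 = 3 * m then 0 else s + 1, by have := s.2; split_ifs <;> omega⟩

/-- the previous slot -/
def pv {m : ℕ} (s : Fin (3 * m)) : Fin (3 * m) :=
  ⟨if (s : ℕ) = 0 then 3 * m - 1 else s - 1, by have := s.2; split_ifs <;> omega⟩

theorem nx_pv {m : ℕ} (s : Fin (3 * m)) : nx (pv s) = s := by
  apply Fin.ext
  have := s.2
  simp only [nx, pv]
  split_ifs <;> omega

theorem pv_nx {m : ℕ} (s : Fin (3 * m)) : pv (nx s) = s := by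
  apply Fin.ext
  have := s.2
  by_cases h : (s : ℕ) + 1 = 3 * m
  · simp only [nx, pv, h, if_true]
    omega
  · simp only [nx, pv, if_neg h]
    rw [if_neg (by omega)]
    omega

/-- matchings inside the cells -/
def C0 : Fin 6 → Fin 6 := ![1, 0, 5, 4, 3, 2]
/-- second matching of the cells -/
def C1 : Fin 6 → Fin 6 := ![3, 2, 1, 0, 5, 4]
/-- third matching of the cells -/
def C2 : Fin 6 → Fin 6 := ![2, 4, 0, 5, 1, 3]

/-- the terminal of the gadget at the position `p`, first or second one -/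
def tm (p : Fin 3) (k : Fin 6) : Fin 14 :=
  ⟨2 * p + (if k = 1 then 0 else 1), by have := p.2; split_ifs <;> omega⟩

/-- the position of the terminal `k` -/
def tp (k : Fin 14) : Fin 3 := ⟨(k : ℕ) / 2 % 3, by omega⟩

/-- the cell vertex joined to the terminal `k` -/
def tk (k : Fin 14) : Fin 6 := if (k : ℕ) % 2 = 0 then 1 else 4

variable {m : ℕ} (ρ : Fin (3 * m) → Fin (3 * m))

/-- the three matchings -/
def τ (c : Fin 3) (v : V m) : V m :=
  if c = 0 then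
    match v with
    | Sum.inl (r, s, k) => Sum.inl (r, s, C0 k)
    | Sum.inr (i, k) => Sum.inr (i, T0 k)
  else if c = 1 then
    match v with
    | Sum.inl (r, s, k) => Sum.inl (r, if k = 0 then pv s else if k = 3 then nx s else s, C1 k)
    | Sum.inr (i, k) => Sum.inr (i, T1 k)
  else
    match v with
    | Sum.inl (r, s, k) =>
      if ρ s = r ∧ (k = 1 ∨ k = 4) then Sum.inr (cl s, tm (ps s) k) else Sum.inl (r, s, C2 k)
    | Sum.inr (i, k) =>
      if k < 6 then Sum.inl (ρ (sl i (tp k)), sl i (tp k), tk k) else Sum.inr (i, T2 k)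

theorem C0C0 : ∀ k, C0 (C0 k) = k := by decide
theorem C1C1 : ∀ k, C1 (C1 k) = k := by decide
theorem C2C2 : ∀ k, C2 (C2 k) = k := by decide
theorem T0T0 : ∀ k, T0 (T0 k) = k := by decide
theorem T1T1 : ∀ k, T1 (T1 k) = k := by decide
theorem T2T2 : ∀ k, 6 ≤ k → T2 (T2 k) = k ∧ 6 ≤ T2 k := by decide
theorem C2k : ∀ k, (C2 k = 1 ∨ C2 k = 4) ↔ (k = 1 ∨ k = 4) := by decide
theorem tmk : ∀ p k, tm p k < 6 := by decide
theorem tptm : ∀ p, ∀ k : Fin 6, tp (tm p k) = p := by decide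
theorem tktm : ∀ p, ∀ k : Fin 6, (k = 1 ∨ k = 4) → tk (tm p k) = k := by decide
theorem tmtk : ∀ k : Fin 14, k < 6 → tm (tp k) (tk k) = k := by decide
theorem tk14 : ∀ k : Fin 14, tk k = 1 ∨ tk k = 4 := by decide

theorem τ_inv (c : Fin 3) (v : V m) : τ ρ c (τ ρ c v) = v := by
  unfold τ
  by_cases h0 : c = 0
  · rcases v with ⟨r, s, k⟩ | ⟨i, k⟩
    · simp only [h0, if_true, C0C0]
    · simp only [h0, if_true, T0T0]
  · by_cases h1 : c = 1
    · rcases v with ⟨r, s, k⟩ | ⟨i, k⟩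
      · simp only [h1, if_true, C1C1, show ((1 : Fin 3) = 0) = False by decide, if_false,
          Sum.inl.injEq, Prod.mk.injEq, true_and, and_true]
        fin_cases k <;> simp [C1, nx_pv, pv_nx]
      · simp only [h1, if_true, T1T1, show ((1 : Fin 3) = 0) = False by decide, if_false]
    · rcases v with ⟨r, s, k⟩ | ⟨i, k⟩
      · simp only [h0, h1, if_false]
        by_cases h2 : ρ s = r ∧ (k = 1 ∨ k = 4)
        · rw [if_pos h2]
          simp only [tmk, if_true, tptm, sl_cl, h2.1, tktm _ _ h2.2]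
        · rw [if_neg h2]
          simp only
          have h3 : ¬ (ρ s = r ∧ (C2 k = 1 ∨ C2 k = 4)) := by rwa [C2k]
          rw [if_neg h3, C2C2]
      · simp only [h0, h1, if_false]
        by_cases h2 : k < 6
        · rw [if_pos h2]
          simp only [tk14, true_and, and_true, if_true, cl_sl, ps_sl, tmtk _ h2]
        · rw [if_neg h2]
          have h3 := T2T2 k (not_lt.1 h2)
          simp only
          rw [if_neg (not_lt.2 h3.2), h3.1]

theorem C0k : ∀ k, C0 k ≠ k := by decide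
theorem C1k : ∀ k, C1 k ≠ k := by decide
theorem C2k' : ∀ k, C2 k ≠ k := by decide
theorem T0k : ∀ k, T0 k ≠ k := by decide
theorem T1k : ∀ k, T1 k ≠ k := by decide
theorem T2k : ∀ k, 6 ≤ k → T2 k ≠ k := by decide
theorem C01 : ∀ k, C0 k ≠ C1 k := by decide
theorem C12 : ∀ k, C1 k ≠ C2 k := by decide
theorem C20 : ∀ k, C2 k ≠ C0 k := by decide
theorem T01 : ∀ k, T0 k ≠ T1 k := by decide
theorem T12 : ∀ k, 6 ≤ k → T1 k ≠ T2 k := by decide
theorem T20 : ∀ k, 6 ≤ k → T2 k ≠ T0 k := by decide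

theorem τ_ne (c : Fin 3) (v : V m) : τ ρ c v ≠ v := by
  unfold τ
  by_cases h0 : c = 0
  · rcases v with ⟨r, s, k⟩ | ⟨i, k⟩
    · simp [h0, C0k]
    · simp [h0, T0k]
  · by_cases h1 : c = 1
    · rcases v with ⟨r, s, k⟩ | ⟨i, k⟩
      · simp [h1, C1k]
      · simp [h1, T1k]
    · rcases v with ⟨r, s, k⟩ | ⟨i, k⟩
      · simp only [h0, h1, if_false]
        split_ifs
        · simp
        · simp [C2k']
      · simp only [h0, h1, if_false]
        split_ifs with h2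
        · simp
        · simp [T2k _ (not_lt.1 h2)]

theorem τ_ne' (c : Fin 3) (v : V m) : τ ρ c v ≠ τ ρ (c + 1) v := by
  have hc : c = 0 ∨ c = 1 ∨ c = 2 := by revert c; decide
  have h10 : ((1 : Fin 3) = 0) = False := by decide
  have h20 : ((2 : Fin 3) = 0) = False := by decide
  have h21 : ((2 : Fin 3) = 1) = False := by decide
  have e0 : (0 : Fin 3) + 1 = 1 := rfl
  have e1 : (1 : Fin 3) + 1 = 2 := rfl
  have e2 : (2 : Fin 3) + 1 = 0 := rfl
  rcases hc with rfl | rfl | rfl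
  · rw [e0]
    unfold τ
    rcases v with ⟨r, s, k⟩ | ⟨i, k⟩
    · simp [C01]
    · simp [T01]
  · rw [e1]
    unfold τ
    simp only [h10, h20, h21, if_false, if_true]
    rcases v with ⟨r, s, k⟩ | ⟨i, k⟩
    · simp only
      split_ifs <;> simp [C12]
    · simp only
      split_ifs with h2
      · simp
      · simp [T12 _ (not_lt.1 h2)]
  · rw [e2]
    unfold τ
    simp only [h20, h21, if_false, if_true]
    rcases v with ⟨r, s, k⟩ | ⟨i, k⟩
    · simp only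
      split_ifs <;> simp [C20]
    · simp only
      split_ifs with h2
      · simp
      · simp [T20 _ (not_lt.1 h2)]

/-- suitable 2-colourings -/
def VCol (y : Fin 3 → V m → Bool) : Prop :=
  (∀ c v, y c (τ ρ c v) = !y c v ∧ y c (τ ρ (c + 1) v) = !y c v) ∧
    ∀ v, ¬ (y 0 v = y 1 v ∧ y 1 v = y 2 v)

/-- signs in the cells -/
def cs : Fin 3 → Fin 6 → Bool := ![![false, true, false, true, false, true],
  ![false, false, true, true, true, false], ![true, false, false, false, true, true]]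

/-- indices in the gadgets -/
def gi : Fin 3 → Fin 14 → Fin 3 := ![![0, 0, 1, 1, 2, 2, 1, 1, 2, 1, 1, 2, 0, 0],
  ![0, 0, 1, 1, 2, 2, 0, 1, 1, 0, 1, 1, 0, 0], ![0, 0, 1, 1, 2, 2, 2, 2, 2, 2, 2, 2, 2, 2]]

/-- signs in the gadgets -/
def gs : Fin 3 → Fin 14 → Bool :=
  ![![true, false, true, false, true, false, false, true, false, true, false, true, true, false],
  ![false, true, false, true, false, true, false, false, false, true, true, true, false, true],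
  ![false, true, false, true, false, true, false, true, true, true, false, false, false, true]]

/-- the colouring given by the values `P` of the rows -/
def colV (P : Fin (3 * m) → Bool) (c : Fin 3) (v : V m) : Bool :=
  match v with
  | Sum.inl (r, _, k) => P r ^^ cs c k
  | Sum.inr (i, k) => (!P (ρ (sl i (gi c k)))) ^^ gs c k

theorem cs_0 : ∀ (b : Bool) (k : Fin 6), (b ^^ cs 0 (C0 k)) = !(b ^^ cs 0 k) ∧
    (b ^^ cs 0 (C1 k)) = !(b ^^ cs 0 k) ∧ (b ^^ cs 1 (C1 k)) = !(b ^^ cs 1 k) ∧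
    (b ^^ cs 1 (C2 k)) = !(b ^^ cs 1 k) ∧ (b ^^ cs 2 (C2 k)) = !(b ^^ cs 2 k) ∧
    (b ^^ cs 2 (C0 k)) = !(b ^^ cs 2 k) ∧
    ¬ ((b ^^ cs 0 k) = (b ^^ cs 1 k) ∧ (b ^^ cs 1 k) = (b ^^ cs 2 k)) := by
  decide

theorem gi_0 : ∀ k, gi 0 (T0 k) = gi 0 k ∧ gi 0 (T1 k) = gi 0 k ∧ gi 1 (T1 k) = gi 1 k ∧
    gi 2 (T0 k) = gi 2 k ∧ gs 0 (T0 k) = !gs 0 k ∧ gs 0 (T1 k) = !gs 0 k ∧
    gs 1 (T1 k) = !gs 1 k ∧ gs 2 (T0 k) = !gs 2 k := by decide

theorem gi_1 : ∀ k, 6 ≤ k → gi 1 (T2 k) = gi 1 k ∧ gi 2 (T2 k) = gi 2 k ∧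
    gs 1 (T2 k) = !gs 1 k ∧ gs 2 (T2 k) = !gs 2 k := by decide

theorem gi_2 : ∀ k, k < 6 → gi 1 k = tp k ∧ gi 2 k = tp k ∧
    (∀ b : Bool, (b ^^ cs 1 (tk k)) = !(!b ^^ gs 1 k)) ∧
    ∀ b : Bool, (b ^^ cs 2 (tk k)) = !(!b ^^ gs 2 k) := by decide

theorem gi_3 : ∀ (k : Fin 14) (Q : Fin 3 → Bool), ¬ (Q 0 = Q 1 ∧ Q 1 = Q 2) →
    ¬ ((!Q (gi 0 k) ^^ gs 0 k) = (!Q (gi 1 k) ^^ gs 1 k) ∧
      (!Q (gi 1 k) ^^ gs 1 k) = (!Q (gi 2 k) ^^ gs 2 k)) := by decide

theorem xor_not' (a b : Bool) : (a ^^ !b) = !(a ^^ b) := by cases a <;> cases b <;> rfl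

theorem vcol_colV (P : Fin (3 * m) → Bool)
    (hP : ∀ i : Fin m, ¬ (P (ρ (sl i 0)) = P (ρ (sl i 1)) ∧ P (ρ (sl i 1)) = P (ρ (sl i 2)))) :
    VCol ρ (colV ρ P) := by
  have h10 : ((1 : Fin 3) = 0) = False := by decide
  have h20 : ((2 : Fin 3) = 0) = False := by decide
  have h21 : ((2 : Fin 3) = 1) = False := by decide
  have e0 : (0 : Fin 3) + 1 = 1 := rfl
  have e1 : (1 : Fin 3) + 1 = 2 := rfl
  have e2 : (2 : Fin 3) + 1 = 0 := rfl
  -- the third matching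
  have h2 : ∀ v, colV ρ P 1 (τ ρ 2 v) = !colV ρ P 1 v ∧ colV ρ P 2 (τ ρ 2 v) = !colV ρ P 2 v := by
    intro v
    unfold τ
    simp only [h20, h21, if_false]
    rcases v with ⟨r, s, k⟩ | ⟨i, k⟩
    · simp only
      split_ifs with h
      · have hk := gi_2 _ (tmk (ps s) k)
        rw [tptm, tktm _ _ h.2] at hk
        obtain ⟨k1, k2, k3, k4⟩ := hk
        simp only [colV]
        rw [k1, k2, sl_cl, h.1, k3, k4, Bool.not_not, Bool.not_not]
        exact ⟨rfl, rfl⟩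
      · simp only [colV]
        exact ⟨(cs_0 _ _).2.2.2.1, (cs_0 _ _).2.2.2.2.1⟩
    · simp only
      split_ifs with h
      · obtain ⟨k1, k2, k3, k4⟩ := gi_2 k h
        simp only [colV]
        rw [k1, k2, k3, k4]
        exact ⟨rfl, rfl⟩
      · obtain ⟨k1, k2, k3, k4⟩ := gi_1 k (not_lt.1 h)
        simp only [colV]
        rw [k1, k2, k3, k4, xor_not', xor_not']
        exact ⟨rfl, rfl⟩
  have h1 : ∀ v, colV ρ P 0 (τ ρ 1 v) = !colV ρ P 0 v ∧ colV ρ P 1 (τ ρ 1 v) = !colV ρ P 1 v := by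
    intro v
    unfold τ
    simp only [h10, if_false, if_true]
    rcases v with ⟨r, s, k⟩ | ⟨i, k⟩
    · simp only [colV]
      exact ⟨(cs_0 _ _).2.1, (cs_0 _ _).2.2.1⟩
    · obtain ⟨g1, g2, g3, g4, g5, g6, g7, g8⟩ := gi_0 k
      simp only [colV]
      rw [g2, g3, g6, g7, xor_not', xor_not']
      exact ⟨rfl, rfl⟩
  have h0 : ∀ v, colV ρ P 0 (τ ρ 0 v) = !colV ρ P 0 v ∧ colV ρ P 2 (τ ρ 0 v) = !colV ρ P 2 v := by
    intro v
    unfold τ
    simp only [if_true]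
    rcases v with ⟨r, s, k⟩ | ⟨i, k⟩
    · simp only [colV]
      exact ⟨(cs_0 _ _).1, (cs_0 _ _).2.2.2.2.2.1⟩
    · obtain ⟨g1, g2, g3, g4, g5, g6, g7, g8⟩ := gi_0 k
      simp only [colV]
      rw [g1, g4, g5, g8, xor_not', xor_not']
      exact ⟨rfl, rfl⟩
  refine ⟨?_, ?_⟩
  · intro c v
    have hc : c = 0 ∨ c = 1 ∨ c = 2 := by revert c; decide
    rcases hc with rfl | rfl | rfl
    · exact ⟨(h0 v).1, (h1 v).1⟩
    · exact ⟨(h1 v).2, (h2 v).1⟩
    · exact ⟨(h2 v).2, (h0 v).2⟩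
  · rintro (⟨r, s, k⟩ | ⟨i, k⟩)
    · simp only [colV]
      exact (cs_0 _ _).2.2.2.2.2.2
    · simp only [colV]
      exact gi_3 k (fun p => P (ρ (sl i p))) (hP i)

theorem tri_key : ∀ p q r : Bool, ¬ (p = q ∧ q = !r) → ¬ ((!p) = q ∧ q = r) →
    ¬ (p = (!q) ∧ (!q) = r) → q = p ∧ r = p := by decide

theorem of_vcol {y : Fin 3 → V m → Bool} (hy : VCol ρ y) :
    ∃ P : Fin (3 * m) → Bool, ∀ i : Fin m,
      ¬ (P (ρ (sl i 0)) = P (ρ (sl i 1)) ∧ P (ρ (sl i 1)) = P (ρ (sl i 2))) := by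
  obtain ⟨hy1, hy2⟩ := hy
  have e2 : (2 : Fin 3) + 1 = 0 := rfl
  -- one triangle, `a b c` its vertices
  have tri : ∀ (a b c : V m), τ ρ 0 a = b → τ ρ 1 b = c → τ ρ 2 c = a →
      y 1 b = y 0 a ∧ y 2 b = y 0 a ∧ y 0 c = y 0 a := by
    intro a b c hab hbc hca
    have hac : τ ρ 2 a = c := by rw [← hca, τ_inv]
    have hba : τ ρ 0 b = a := by rw [← hab, τ_inv]
    have hcb : τ ρ 1 c = b := by rw [← hbc, τ_inv]
    have x0b : y 0 b = !y 0 a := by rw [← hab]; exact (hy1 0 a).1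
    have x0c : y 0 c = y 0 a := by
      have : y 0 c = !y 0 b := by rw [← hbc]; exact (hy1 0 b).2
      rw [this, x0b, Bool.not_not]
    have x1c : y 1 c = !y 1 b := by rw [← hbc]; exact (hy1 1 b).1
    have x1a : y 1 a = y 1 b := by
      have : y 1 a = !y 1 c := by rw [← hca]; exact (hy1 1 c).2
      rw [this, x1c, Bool.not_not]
    have x2a : y 2 a = !y 2 b := by
      have h := (hy1 2 b).2
      rw [e2, hba] at h
      exact h
    have x2c : y 2 c = y 2 b := by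
      have : y 2 c = !y 2 a := by rw [← hac]; exact (hy1 2 a).1
      rw [this, x2a, Bool.not_not]
    have na := hy2 a
    have nb := hy2 b
    have nc := hy2 c
    rw [x1a, x2a] at na
    rw [x0b] at nb
    rw [x0c, x1c, x2c] at nc
    obtain ⟨k1, k2⟩ := tri_key _ _ _ na nb nc
    exact ⟨k1, k2, x0c⟩
  -- cells
  have cellA : ∀ r s, y 1 (Sum.inl (r, s, 1)) = y 0 (Sum.inl (r, s, 0)) ∧
      y 2 (Sum.inl (r, s, 1)) = y 0 (Sum.inl (r, s, 0)) ∧
      y 0 (Sum.inl (r, s, 2)) = y 0 (Sum.inl (r, s, 0)) := by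
    intro r s
    refine tri _ _ _ ?_ ?_ ?_
    · simp [τ, C0]
    · simp [τ, C1]
    · simp [τ, C2]
  have cellB : ∀ r s, y 1 (Sum.inl (r, s, 4)) = y 0 (Sum.inl (r, s, 3)) ∧
      y 2 (Sum.inl (r, s, 4)) = y 0 (Sum.inl (r, s, 3)) ∧
      y 0 (Sum.inl (r, s, 5)) = y 0 (Sum.inl (r, s, 3)) := by
    intro r s
    refine tri _ _ _ ?_ ?_ ?_
    · simp [τ, C0]
    · simp [τ, C1]
    · simp [τ, C2]
  have hAB : ∀ r s, y 0 (Sum.inl (r, s, 3)) = !y 0 (Sum.inl (r, s, 0)) := by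
    intro r s
    have h1 := (hy1 0 (Sum.inl (r, s, 2))).1
    have h2 : τ ρ 0 (Sum.inl (r, s, 2)) = Sum.inl (r, s, 5) := by simp [τ, C0]
    rw [h2, (cellB r s).2.2, (cellA r s).2.2] at h1
    exact h1
  have hstep : ∀ r s, y 0 (Sum.inl (r, nx s, 0)) = y 0 (Sum.inl (r, s, 0)) := by
    intro r s
    have h1 := (hy1 0 (Sum.inl (r, s, 3))).2
    have h2 : τ ρ (0 + 1) (Sum.inl (r, s, 3)) = Sum.inl (r, nx s, 0) := by
      have e0 : (0 : Fin 3) + 1 = 1 := rfl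
      rw [e0]
      simp [τ, C1]
    rw [h2, hAB, Bool.not_not] at h1
    exact h1
  have hrow : ∀ (hm : 0 < 3 * m) r (s : Fin (3 * m)),
      y 0 (Sum.inl (r, s, 0)) = y 0 (Sum.inl (r, ⟨0, hm⟩, 0)) := by
    intro hm r
    have : ∀ n (hn : n < 3 * m), y 0 (Sum.inl (r, ⟨n, hn⟩, 0)) =
        y 0 (Sum.inl (r, ⟨0, hm⟩, 0)) := by
      intro n
      induction n with
      | zero => intro _; rfl
      | succ n ih =>
        intro hn
        have h1 := hstep r ⟨n, by omega⟩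
        have h2 : nx (⟨n, by omega⟩ : Fin (3 * m)) = ⟨n + 1, hn⟩ := by
          apply Fin.ext
          simp only [nx]
          rw [if_neg (by omega)]
        rw [h2] at h1
        rw [h1]
        exact ih _
    intro s
    exact this s s.2
  rcases Nat.eq_zero_or_pos m with hm0 | hm0
  · subst hm0
    exact ⟨fun _ => false, fun i => i.elim0⟩
  have hm : 0 < 3 * m := by omega
  refine ⟨fun r => y 0 (Sum.inl (r, ⟨0, hm⟩, 0)), fun i => ?_⟩
  simp only
  -- the terminals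
  have hterm : ∀ p : Fin 3, y 1 (Sum.inr (i, tm p 1)) =
        !y 0 (Sum.inl (ρ (sl i p), ⟨0, hm⟩, 0)) ∧
      y 2 (Sum.inr (i, tm p 1)) = !y 0 (Sum.inl (ρ (sl i p), ⟨0, hm⟩, 0)) := by
    intro p
    have h2 : τ ρ 2 (Sum.inl (ρ (sl i p), sl i p, 1)) = Sum.inr (i, tm p 1) := by
      have h20 : ((2 : Fin 3) = 0) = False := by decide
      have h21 : ((2 : Fin 3) = 1) = False := by decide
      unfold τ
      simp only [h20, h21, if_false, true_or, and_true, if_true, cl_sl, ps_sl]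
    have h3 := (hy1 1 (Sum.inl (ρ (sl i p), sl i p, 1))).2
    have h4 := (hy1 2 (Sum.inl (ρ (sl i p), sl i p, 1))).1
    have e1 : (1 : Fin 3) + 1 = 2 := rfl
    rw [e1, h2, (cellA _ _).1, hrow hm] at h3
    rw [h2, (cellA _ _).2.1, hrow hm] at h4
    exact ⟨h3, h4⟩
  have t0 := hterm 0
  have t1 := hterm 1
  have t2 := hterm 2
  have key := gadget_key (fun c k => y c (Sum.inr (i, k)))
    (fun k => (hy1 0 (Sum.inr (i, k))).1)
    (fun k => (hy1 0 (Sum.inr (i, k))).2)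
    (fun k => (hy1 1 (Sum.inr (i, k))).1)
    (fun k hk => by
      have h1 := (hy1 1 (Sum.inr (i, k))).2
      have h2 : τ ρ (1 + 1) (Sum.inr (i, k)) = Sum.inr (i, T2 k) := by
        have h20 : ((1 + 1 : Fin 3) = 0) = False := by decide
        have h21 : ((1 + 1 : Fin 3) = 1) = False := by decide
        unfold τ
        simp only [h20, h21, if_false]
        rw [if_neg (not_lt.2 hk)]
      rw [h2] at h1
      exact h1)
    (fun k hk => by
      have h1 := (hy1 2 (Sum.inr (i, k))).1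
      have h2 : τ ρ 2 (Sum.inr (i, k)) = Sum.inr (i, T2 k) := by
        have h20 : ((2 : Fin 3) = 0) = False := by decide
        have h21 : ((2 : Fin 3) = 1) = False := by decide
        unfold τ
        simp only [h20, h21, if_false]
        rw [if_neg (not_lt.2 hk)]
      rw [h2] at h1
      exact h1)
    (fun k => (hy1 2 (Sum.inr (i, k))).2)
    (fun k => hy2 _)
    _ _ _ t0.1 t1.1 t2.1 t0.2 t1.2 t2.2
  rintro ⟨k1, k2⟩
  exact key ⟨by rw [k1], by rw [k2]⟩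

/-- the colourings exist if and only if the rows have suitable values -/
theorem vcol_iff : (∃ y : Fin 3 → V m → Bool, VCol ρ y) ↔
    ∃ P : Fin (3 * m) → Bool, ∀ i : Fin m,
      ¬ (P (ρ (sl i 0)) = P (ρ (sl i 1)) ∧ P (ρ (sl i 1)) = P (ρ (sl i 2))) :=
  ⟨fun ⟨_, hy⟩ => of_vcol ρ hy, fun ⟨P, hP⟩ => ⟨_, vcol_colV ρ P hP⟩⟩

end Pool.Agent.Y669.SR
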