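import Mathlib
import Pool.Agent.H648R3.WC.Nae
import Pool.Agent.Y669.SR.Char
import Pool.Agent.Y669.SR.Gad

/-!
# The reduction from monotone not-all-equal satisfiability
-/

set_option autoImplicit false

namespace Pool.Agent.Y669.SR

open Pool.Agent.NPC Pool.Agent.NPC.WC648

/-- number of the vertices in the cells -/
def nc (m : ℕ) : ℕ := 6 * (3 * m * (3 * m))

/-- number of the vertices -/
def nv (m : ℕ) : ℕ := nc m + 14 * m

/-- first involution on the codes -/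
def sg0 (m a : ℕ) : ℕ :=
  if a < nc m then 6 * (a / 6) + [1, 0, 5, 4, 3, 2].getD (a % 6) 0
  else nc m + (14 * ((a - nc m) / 14) +
    [1, 0, 3, 2, 8, 11, 7, 6, 4, 10, 9, 5, 13, 12].getD ((a - nc m) % 14) 0)

/-- second involution on the codes -/
def sg1 (m a : ℕ) : ℕ :=
  if a < nc m then 6 * (a / 6 / (3 * m) * (3 * m) +
      (if a % 6 = 0 then (if a / 6 % (3 * m) = 0 then 3 * m - 1 else a / 6 % (3 * m) - 1)
      else if a % 6 = 3 then
        (if a / 6 % (3 * m) + 1 = 3 * m then 0 else a / 6 % (3 * m) + 1)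
      else a / 6 % (3 * m))) + [3, 2, 1, 0, 5, 4].getD (a % 6) 0
  else nc m + (14 * ((a - nc m) / 14) +
    [13, 12, 10, 7, 5, 4, 9, 3, 11, 6, 2, 8, 1, 0].getD ((a - nc m) % 14) 0)

/-- third involution on the codes -/
def sg2 (rho : List ℕ) (m a : ℕ) : ℕ :=
  if a < nc m then
    (if rho.getD (a / 6 % (3 * m)) 0 = a / 6 / (3 * m) ∧ (a % 6 = 1 ∨ a % 6 = 4) then
      nc m + (14 * (a / 6 % (3 * m) / 3) +
        (2 * (a / 6 % (3 * m) % 3) + if a % 6 = 1 then 0 else 1))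
    else 6 * (a / 6) + [2, 4, 0, 5, 1, 3].getD (a % 6) 0)
  else if (a - nc m) % 14 < 6 then
    6 * (rho.getD (3 * ((a - nc m) / 14) + (a - nc m) % 14 / 2 % 3) 0 * (3 * m) +
      (3 * ((a - nc m) / 14) + (a - nc m) % 14 / 2 % 3)) +
      (if (a - nc m) % 14 % 2 = 0 then 1 else 4)
  else nc m + (14 * ((a - nc m) / 14) +
    [0, 0, 0, 0, 0, 0, 13, 11, 10, 12, 8, 7, 9, 6].getD ((a - nc m) % 14) 0)

/-- the three involutions -/
def sg (rho : List ℕ) (m : ℕ) (c : Fin 3) (a : ℕ) : ℕ :=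
  if c = 0 then sg0 m a else if c = 1 then sg1 m a else sg2 rho m a

/-- the code of a vertex -/
def ec {m : ℕ} (v : V m) : ℕ :=
  match v with
  | Sum.inl (r, s, k) => 6 * (r * (3 * m) + s) + k
  | Sum.inr (i, k) => nc m + (14 * i + k)

theorem cell_lt {m r s : ℕ} (hr : r < 3 * m) (hs : s < 3 * m) : r * (3 * m) + s < 3 * m * (3 * m) := by
  have : (r + 1) * (3 * m) ≤ 3 * m * (3 * m) := Nat.mul_le_mul_right _ hr
  rw [Nat.add_mul, Nat.one_mul] at this
  omega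

theorem ec_inl {m : ℕ} (r s : Fin (3 * m)) (k : Fin 6) :
    ec (Sum.inl (r, s, k) : V m) = 6 * (r * (3 * m) + s) + k := rfl

theorem ec_inr {m : ℕ} (i : Fin m) (k : Fin 14) :
    ec (Sum.inr (i, k) : V m) = nc m + (14 * i + k) := rfl

theorem inl_facts {m : ℕ} (r s : Fin (3 * m)) (k : Fin 6) :
    ec (Sum.inl (r, s, k) : V m) < nc m ∧ ec (Sum.inl (r, s, k) : V m) % 6 = k ∧
      ec (Sum.inl (r, s, k) : V m) / 6 = r * (3 * m) + s ∧
      ec (Sum.inl (r, s, k) : V m) / 6 / (3 * m) = r ∧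
      ec (Sum.inl (r, s, k) : V m) / 6 % (3 * m) = s := by
  have h := cell_lt r.2 s.2
  have hm : 0 < 3 * m := by have := r.2; omega
  have hk := k.2
  rw [ec_inl]
  unfold nc
  generalize hq : (r : ℕ) * (3 * m) + s = q at h ⊢
  have h1 : (6 * q + (k : ℕ)) / 6 = q := by omega
  refine ⟨by omega, by omega, h1, ?_, ?_⟩
  · rw [h1, ← hq, mul_comm, Nat.mul_add_div hm, Nat.div_eq_of_lt s.2, add_zero]
  · rw [h1, ← hq, mul_comm, Nat.mul_add_mod, Nat.mod_eq_of_lt s.2]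

theorem inr_facts {m : ℕ} (i : Fin m) (k : Fin 14) :
    ¬ ec (Sum.inr (i, k) : V m) < nc m ∧ ec (Sum.inr (i, k) : V m) - nc m = 14 * i + k ∧
      (14 * (i : ℕ) + k) % 14 = k ∧ (14 * (i : ℕ) + k) / 14 = i := by
  have hk := k.2
  rw [ec_inr]
  refine ⟨by omega, by omega, by omega, by omega⟩

theorem ec_lt {m : ℕ} (v : V m) : ec v < nv m := by
  rcases v with ⟨r, s, k⟩ | ⟨i, k⟩
  · have := (inl_facts r s k).1
    unfold nv
    omega
  · have := i.2
    have := k.2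
    rw [ec_inr]
    unfold nv
    omega

theorem ec_inj {m : ℕ} : Function.Injective (ec : V m → ℕ) := by
  rintro (⟨r, s, k⟩ | ⟨i, k⟩) (⟨r', s', k'⟩ | ⟨i', k'⟩) h
  · have f := inl_facts r s k
    have f' := inl_facts r' s' k'
    have e1 : k = k' := Fin.ext (by rw [← f.2.1, ← f'.2.1, h])
    have e2 : r = r' := Fin.ext (by rw [← f.2.2.2.1, ← f'.2.2.2.1, h])
    have e3 : s = s' := Fin.ext (by rw [← f.2.2.2.2, ← f'.2.2.2.2, h])
    rw [e1, e2, e3]
  · have f := inl_facts r s k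
    have f' := inr_facts i' k'
    rw [h] at f
    exact absurd f.1 f'.1
  · have f := inl_facts r' s' k'
    have f' := inr_facts i k
    rw [← h] at f
    exact absurd f.1 f'.1
  · have f := inr_facts i k
    have f' := inr_facts i' k'
    rw [h] at f
    have e0 : 14 * (i : ℕ) + k = 14 * i' + k' := by rw [← f.2.1, ← f'.2.1]
    have e1 : i = i' := Fin.ext (by rw [← f.2.2.2, ← f'.2.2.2, e0])
    have e2 : k = k' := Fin.ext (by rw [← f.2.2.1, ← f'.2.2.1, e0])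
    rw [e1, e2]

theorem ec_surj {m : ℕ} {a : ℕ} (ha : a < nv m) : ∃ v : V m, ec v = a := by
  by_cases h : a < nc m
  · have hm : 0 < 3 * m := by
      rcases Nat.eq_zero_or_pos m with h0 | h0
      · subst h0
        simp [nc] at h
      · omega
    have hq : a / 6 < 3 * m * (3 * m) := by
      unfold nc at h
      omega
    refine ⟨Sum.inl (⟨a / 6 / (3 * m), Nat.div_lt_of_lt_mul hq⟩,
      ⟨a / 6 % (3 * m), Nat.mod_lt _ hm⟩, ⟨a % 6, Nat.mod_lt _ (by norm_num)⟩), ?_⟩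
    rw [ec_inl]
    simp only
    have h1 : a / 6 / (3 * m) * (3 * m) + a / 6 % (3 * m) = a / 6 := Nat.div_add_mod' _ _
    rw [h1]
    omega
  · unfold nv at ha
    refine ⟨Sum.inr (⟨(a - nc m) / 14, by omega⟩, ⟨(a - nc m) % 14, by omega⟩), ?_⟩
    rw [ec_inr]
    simp only
    omega

theorem tab6 : ∀ k : Fin 6, ((C0 k : Fin 6) : ℕ) = [1, 0, 5, 4, 3, 2].getD k 0 ∧
    ((C1 k : Fin 6) : ℕ) = [3, 2, 1, 0, 5, 4].getD k 0 ∧
    ((C2 k : Fin 6) : ℕ) = [2, 4, 0, 5, 1, 3].getD k 0 := by decide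

theorem tab14 : ∀ k : Fin 14,
    ((T0 k : Fin 14) : ℕ) = [1, 0, 3, 2, 8, 11, 7, 6, 4, 10, 9, 5, 13, 12].getD k 0 ∧
    ((T1 k : Fin 14) : ℕ) = [13, 12, 10, 7, 5, 4, 9, 3, 11, 6, 2, 8, 1, 0].getD k 0 ∧
    ((T2 k : Fin 14) : ℕ) = [0, 0, 0, 0, 0, 0, 13, 11, 10, 12, 8, 7, 9, 6].getD k 0 := by decide

theorem fin6_eq : ∀ k : Fin 6, ((k = 0) ↔ (k : ℕ) = 0) ∧ ((k = 3) ↔ (k : ℕ) = 3) ∧
    ((k = 1) ↔ (k : ℕ) = 1) ∧ ((k = 4) ↔ (k : ℕ) = 4) := by decide

theorem fin14_lt : ∀ k : Fin 14, (k < 6 ↔ (k : ℕ) < 6) := by decide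

theorem tk_val : ∀ k : Fin 14, ((tk k : Fin 6) : ℕ) = if (k : ℕ) % 2 = 0 then 1 else 4 := by decide

variable {m : ℕ} {rho : List ℕ} {ρ : Fin (3 * m) → Fin (3 * m)}

/-- the involutions on the codes correspond to the involutions on the vertices -/
theorem sg_ec (hρ : ∀ s, ((ρ s : Fin (3 * m)) : ℕ) = rho.getD s 0) (c : Fin 3) (v : V m) :
    sg rho m c (ec v) = ec (τ ρ c v) := by
  unfold sg τ
  by_cases h0 : c = 0
  · simp only [h0, if_true]
    rcases v with ⟨r, s, k⟩ | ⟨i, k⟩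
    · obtain ⟨f1, f2, f3, -, -⟩ := inl_facts r s k
      unfold sg0
      rw [if_pos f1, f2, f3]
      simp only [ec_inl, (tab6 k).1]
    · obtain ⟨f1, f2, f3, f4⟩ := inr_facts i k
      unfold sg0
      rw [if_neg f1, f2, f3, f4]
      simp only [ec_inr, (tab14 k).1]
  · by_cases h1 : c = 1
    · simp only [h1, if_true, show ((1 : Fin 3) = 0) = False by decide, if_false]
      rcases v with ⟨r, s, k⟩ | ⟨i, k⟩
      · obtain ⟨f1, f2, f3, f4, f5⟩ := inl_facts r s k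
        unfold sg1
        rw [if_pos f1, f2, f4, f5]
        simp only [ec_inl, (tab6 k).2.1, (fin6_eq k).1, (fin6_eq k).2.1]
        congr 3
        split_ifs <;> simp_all [nx, pv]
      · obtain ⟨f1, f2, f3, f4⟩ := inr_facts i k
        unfold sg1
        rw [if_neg f1, f2, f3, f4]
        simp only [ec_inr, (tab14 k).2.1]
    · simp only [h0, h1, if_false]
      rcases v with ⟨r, s, k⟩ | ⟨i, k⟩
      · obtain ⟨f1, f2, f3, f4, f5⟩ := inl_facts r s k
        unfold sg2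
        rw [if_pos f1, f2, f4, f5, f3]
        simp only [(fin6_eq k).2.2.1, (fin6_eq k).2.2.2, ← hρ, Fin.ext_iff]
        by_cases h2 : ((ρ s : Fin (3 * m)) : ℕ) = r ∧ ((k : ℕ) = 1 ∨ (k : ℕ) = 4)
        · rw [if_pos h2, if_pos h2]
          simp only [ec_inr, cl, tm, ps, (fin6_eq k).2.2.1]
        · rw [if_neg h2, if_neg h2]
          simp only [ec_inl, (tab6 k).2.2]
      · obtain ⟨f1, f2, f3, f4⟩ := inr_facts i k
        unfold sg2
        rw [if_neg f1, f2, f3, f4]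
        simp only [fin14_lt]
        by_cases h2 : (k : ℕ) < 6
        · rw [if_pos h2, if_pos h2]
          simp only [ec_inl, hρ, sl, tp, tk_val]
        · rw [if_neg h2, if_neg h2]
          simp only [ec_inr, (tab14 k).2.2]

theorem good_sg (hρ : ∀ s, ((ρ s : Fin (3 * m)) : ℕ) = rho.getD s 0) :
    Good (nv m) (sg rho m) := by
  refine ⟨?_, ?_⟩
  · intro c a ha
    obtain ⟨v, rfl⟩ := ec_surj ha
    rw [sg_ec hρ]
    refine ⟨ec_lt _, ?_, ?_⟩
    · intro h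
      exact τ_ne ρ c v (ec_inj h)
    · rw [sg_ec hρ, τ_inv]
  · intro c a ha
    obtain ⟨v, rfl⟩ := ec_surj ha
    rw [sg_ec hρ, sg_ec hρ]
    intro h
    exact τ_ne' ρ c v (ec_inj h)

theorem colour_iff_vcol (hρ : ∀ s, ((ρ s : Fin (3 * m)) : ℕ) = rho.getD s 0) :
    (∃ x, Colour (nv m) (sg rho m) x) ↔ ∃ y : Fin 3 → V m → Bool, VCol ρ y := by
  constructor
  · rintro ⟨x, hx1, hx2⟩
    refine ⟨fun c v => x c (ec v), ?_, ?_⟩
    · intro c v
      have := hx1 c (ec v) (ec_lt v)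
      rw [sg_ec hρ, sg_ec hρ] at this
      exact this
    · intro v
      exact hx2 (ec v) (ec_lt v)
  · rintro ⟨y, hy1, hy2⟩
    classical
    obtain ⟨x, hx⟩ : ∃ x : Fin 3 → ℕ → Bool, ∀ c (v : V m), x c (ec v) = y c v := by
      refine ⟨fun c a => if h : ∃ v : V m, ec v = a then y c h.choose else false, fun c v => ?_⟩
      have h : ∃ v' : V m, ec v' = ec v := ⟨v, rfl⟩
      simp only [dif_pos h]
      rw [ec_inj h.choose_spec]
    refine ⟨x, ?_, ?_⟩
    · intro c a ha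
      obtain ⟨v, rfl⟩ := ec_surj ha
      rw [sg_ec hρ, sg_ec hρ, hx, hx, hx]
      exact hy1 c v
    · intro a ha
      obtain ⟨v, rfl⟩ := ec_surj ha
      rw [hx, hx, hx]
      exact hy2 v

end Pool.Agent.Y669.SR
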