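import Mathlib
import Pool.Agent.Y669.SR.Code

/-!
# NP-hardness for three pairwise disjoint perfect matchings
-/

set_option autoImplicit false

namespace Pool.Agent.Y669.SR

open Pool.Agent.NPC Pool.Agent.NPC.WC648

/-- the occurrences of the variables -/
def occ (φ : List (NV × NV × NV)) : List NV := φ.flatMap (fun t => [t.1, t.2.1, t.2.2])

/-- the row of each occurrence -/
noncomputable def rhoL (φ : List (NV × NV × NV)) : List ℕ := (occ φ).map (fun v => index (occ φ) v)

theorem occ_length (φ : List (NV × NV × NV)) : (occ φ).length = 3 * φ.length := by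
  unfold occ
  induction φ with
  | nil => rfl
  | cons t φ ih =>
    rw [List.flatMap_cons, List.length_append, ih, List.length_cons]
    simp only [List.length_cons, List.length_nil]
    omega

theorem occ_get (φ : List (NV × NV × NV)) : ∀ (i : ℕ) (t : NV × NV × NV), φ[i]? = some t →
    (occ φ)[3 * i]? = some t.1 ∧ (occ φ)[3 * i + 1]? = some t.2.1 ∧
      (occ φ)[3 * i + 2]? = some t.2.2 := by
  induction φ with
  | nil => intro i t h; simp at h
  | cons u φ ih =>
    intro i t h
    have hocc : occ (u :: φ) = u.1 :: u.2.1 :: u.2.2 :: occ φ := by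
      unfold occ
      rw [List.flatMap_cons]
      rfl
    cases i with
    | zero =>
      rw [List.getElem?_cons_zero, Option.some.injEq] at h
      subst h
      rw [hocc]
      simp
    | succ i =>
      rw [List.getElem?_cons_succ] at h
      have := ih i t h
      rw [hocc]
      have e0 : 3 * (i + 1) = 3 * i + 1 + 1 + 1 := by ring
      have e1 : 3 * (i + 1) + 1 = 3 * i + 1 + 1 + 1 + 1 := by ring
      have e2 : 3 * (i + 1) + 2 = 3 * i + 2 + 1 + 1 + 1 := by ring
      rw [e1, e2, e0]
      simp only [List.getElem?_cons_succ]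
      exact this

theorem index_lt' {l : List NV} {v : NV} (h : v ∈ l) : index l v < l.length := by
  have := getElem?_index h
  by_contra hlt
  rw [List.getElem?_eq_none (by omega)] at this
  simp at this

theorem rhoL_getD (φ : List (NV × NV × NV)) {s : ℕ} {v : NV} (h : (occ φ)[s]? = some v) :
    (rhoL φ).getD s 0 = index (occ φ) v := by
  unfold rhoL
  rw [List.getD_eq_getElem?_getD, List.getElem?_map, h]
  rfl

theorem rhoL_lt (φ : List (NV × NV × NV)) (s : Fin (3 * φ.length)) :
    (rhoL φ).getD s 0 < 3 * φ.length := by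
  have hs : (s : ℕ) < (occ φ).length := by rw [occ_length]; exact s.2
  have h := List.getElem?_eq_getElem hs
  rw [rhoL_getD φ h]
  have := index_lt' (List.getElem_mem hs)
  rw [occ_length] at this
  exact this

/-- the row of each occurrence -/
noncomputable def rhoF (φ : List (NV × NV × NV)) (s : Fin (3 * φ.length)) : Fin (3 * φ.length) :=
  ⟨(rhoL φ).getD s 0, rhoL_lt φ s⟩

theorem NAE_iff (φ : List (NV × NV × NV)) : NAE φ ↔
    ∃ P : Fin (3 * φ.length) → Bool, ∀ i : Fin φ.length,
      ¬ (P (rhoF φ (sl i 0)) = P (rhoF φ (sl i 1)) ∧ P (rhoF φ (sl i 1)) = P (rhoF φ (sl i 2))) := by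
  classical
  have hrow : ∀ (i : Fin φ.length), ((rhoF φ (sl i 0) : Fin (3 * φ.length)) : ℕ) =
        index (occ φ) φ[i].1 ∧
      ((rhoF φ (sl i 1) : Fin (3 * φ.length)) : ℕ) = index (occ φ) φ[i].2.1 ∧
      ((rhoF φ (sl i 2) : Fin (3 * φ.length)) : ℕ) = index (occ φ) φ[i].2.2 := by
    intro i
    have h := occ_get φ i φ[i] (List.getElem?_eq_getElem i.2)
    exact ⟨rhoL_getD φ h.1, rhoL_getD φ h.2.1, rhoL_getD φ h.2.2⟩
  have hmem : ∀ (i : Fin φ.length), φ[i].1 ∈ occ φ ∧ φ[i].2.1 ∈ occ φ ∧ φ[i].2.2 ∈ occ φ := by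
    intro i
    have h := occ_get φ i φ[i] (List.getElem?_eq_getElem i.2)
    exact ⟨List.mem_of_getElem? h.1, List.mem_of_getElem? h.2.1, List.mem_of_getElem? h.2.2⟩
  constructor
  · rintro ⟨t, ht⟩
    let P : Fin (3 * φ.length) → Bool := fun r => t ((occ φ).getD r (0, 0, false))
    have hP : ∀ (r : Fin (3 * φ.length)) (v : NV), v ∈ occ φ → (r : ℕ) = index (occ φ) v →
        P r = t v := by
      intro r v hv hr
      simp only [P]
      rw [List.getD_eq_getElem?_getD, hr, getElem?_index hv]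
      rfl
    refine ⟨P, fun i => ?_⟩
    have h1 := hrow i
    have h2 := hmem i
    rw [hP _ _ h2.1 h1.1, hP _ _ h2.2.1 h1.2.1, hP _ _ h2.2.2 h1.2.2]
    exact ht _ (List.getElem_mem i.2)
  · rintro ⟨P, hP⟩
    refine ⟨fun v => if h : index (occ φ) v < 3 * φ.length then P ⟨index (occ φ) v, h⟩ else false,
      fun u hu => ?_⟩
    obtain ⟨i, hi, rfl⟩ := List.getElem_of_mem hu
    have h1 := hrow ⟨i, hi⟩
    have h2 := hmem ⟨i, hi⟩
    have h3 := hP ⟨i, hi⟩
    have key : ∀ (r : Fin (3 * φ.length)) (v : NV), v ∈ occ φ → (r : ℕ) = index (occ φ) v →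
        (if h : index (occ φ) v < 3 * φ.length then P ⟨index (occ φ) v, h⟩ else false) = P r := by
      intro r v hv hr
      have h4 : index (occ φ) v < 3 * φ.length := by
        rw [← occ_length]
        exact index_lt' hv
      rw [dif_pos h4]
      congr 1
      exact Fin.ext hr.symm
    have k0 := key _ _ h2.1 h1.1
    have k1 := key _ _ h2.2.1 h1.2.1
    have k2 := key _ _ h2.2.2 h1.2.2
    rw [← k0, ← k1, ← k2] at h3
    exact h3

/-- the three matchings of the reduction -/
noncomputable def red (φ : List (NV × NV × NV)) : List Unit × List (List (ℕ × ℕ)) :=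
  (List.replicate (nv φ.length) (),
    [pairs (nv φ.length) (sg0 φ.length), pairs (nv φ.length) (sg1 φ.length),
      pairs (nv φ.length) (sg2 (rhoL φ) φ.length)])

theorem good_red (φ : List (NV × NV × NV)) : Good (nv φ.length) (sg (rhoL φ) φ.length) :=
  good_sg (ρ := rhoF φ) (fun _ => rfl)

theorem sg_zero (rho : List ℕ) (m : ℕ) : sg rho m 0 = sg0 m := by
  funext a
  simp [sg]

theorem sg_one (rho : List ℕ) (m : ℕ) : sg rho m 1 = sg1 m := by
  funext a
  simp [sg]

theorem sg_two (rho : List ℕ) (m : ℕ) : sg rho m 2 = sg2 rho m := by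
  funext a
  simp [sg]

theorem red_len (φ : List (NV × NV × NV)) : (red φ).1.length = nv φ.length := by
  simp [red]

theorem mem_red (φ : List (NV × NV × NV)) (M : List (ℕ × ℕ)) :
    M ∈ (red φ).2 ↔ ∃ c, M = pairs (nv φ.length) (sg (rhoL φ) φ.length c) := by
  simp only [red, List.mem_cons, List.not_mem_nil, or_false]
  constructor
  · rintro (rfl | rfl | rfl)
    · exact ⟨0, by rw [sg_zero]⟩
    · exact ⟨1, by rw [sg_one]⟩
    · exact ⟨2, by rw [sg_two]⟩
  · rintro ⟨c, rfl⟩
    have hc : c = 0 ∨ c = 1 ∨ c = 2 := by revert c; decide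
    rcases hc with rfl | rfl | rfl
    · left; rw [sg_zero]
    · right; left; rw [sg_one]
    · right; right; rw [sg_two]

theorem threePerfect_red (φ : List (NV × NV × NV)) : ThreePerfect (red φ) := by
  have hg := good_red φ
  refine ⟨_, _, _, rfl, ?_, ?_, ?_, ?_⟩
  · intro M hM
    obtain ⟨c, rfl⟩ := (mem_red φ M).1 hM
    rw [red_len]
    exact ⟨isMatching_pairs (hg.1 c), perfect_pairs (hg.1 c)⟩
  · have h := noCommon_pairs (hg.1 0) (hg.1 1) fun a ha => hg.ne (by decide) ha
    rwa [sg_zero, sg_one] at h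
  · have h := noCommon_pairs (hg.1 0) (hg.1 2) fun a ha => hg.ne (by decide) ha
    rwa [sg_zero, sg_two] at h
  · have h := noCommon_pairs (hg.1 1) (hg.1 2) fun a ha => hg.ne (by decide) ha
    rwa [sg_one, sg_two] at h

theorem rationalizable_red (φ : List (NV × NV × NV)) : Rationalizable (red φ) ↔
    ∃ I : Inst (nv φ.length), ∀ c, I.Stable (pairs (nv φ.length) (sg (rhoL φ) φ.length c)) := by
  have hg := good_red φ
  have h1 : (∀ M ∈ (red φ).2, IsMatching (red φ).1.length M) := by
    intro M hM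
    obtain ⟨c, rfl⟩ := (mem_red φ M).1 hM
    rw [red_len]
    exact isMatching_pairs (hg.1 c)
  have h2 : ∀ n, n = nv φ.length → ((∃ I : Inst n, ∀ M ∈ (red φ).2, I.Stable M) ↔
      ∃ I : Inst (nv φ.length), ∀ c,
        I.Stable (pairs (nv φ.length) (sg (rhoL φ) φ.length c))) := by
    rintro n rfl
    constructor
    · rintro ⟨I, hI⟩
      exact ⟨I, fun c => hI _ ((mem_red φ _).2 ⟨c, rfl⟩)⟩
    · rintro ⟨I, hI⟩
      refine ⟨I, fun M hM => ?_⟩
      obtain ⟨c, rfl⟩ := (mem_red φ M).1 hM
      exact hI c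
  unfold Rationalizable
  rw [h2 _ (red_len φ)]
  exact ⟨fun h => h.2, fun h => ⟨h1, h⟩⟩

theorem red_correct (φ : List (NV × NV × NV)) : NAE φ ↔ Rationalizable (red φ) := by
  rw [rationalizable_red, rationalizable_iff (good_red φ), colour_iff_vcol (ρ := rhoF φ)
    (fun _ => rfl), vcol_iff, NAE_iff]

theorem red_correct3 (φ : List (NV × NV × NV)) : NAE φ ↔ Rationalizable3 (red φ) :=
  (red_correct φ).trans ⟨fun h => ⟨threePerfect_red φ, h⟩, fun h => h.2⟩

/-! ### Polynomial time -/

theorem poly_occ : NPC.Poly occ := by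
  unfold occ
  fun_prop

theorem poly_rhoL : NPC.Poly rhoL := by
  unfold rhoL
  refine NPC.Poly.map (F := fun φ v => index (occ φ) v) poly_occ ?_
  exact NPC.Poly.index (poly_occ.comp (NPC.Poly.fst NPC.Poly.id)) (NPC.Poly.snd NPC.Poly.id)

theorem upoly_nv : UPoly (fun φ : List (NV × NV × NV) => nv φ.length) := by
  unfold nv nc
  have h : UPoly (fun φ : List (NV × NV × NV) => φ.length) := UPoly.length NPC.Poly.id
  exact ((UPoly.const 6).mul (((UPoly.const 3).mul h).mul ((UPoly.const 3).mul h))).add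
    ((UPoly.const 14).mul h)

theorem poly_pairs {f : List (NV × NV × NV) → ℕ → ℕ}
    (hf : NPC.Poly (fun p : List (NV × NV × NV) × ℕ => f p.1 p.2)) :
    NPC.Poly (fun φ : List (NV × NV × NV) => pairs (nv φ.length) (f φ)) := by
  unfold pairs
  refine NPC.Poly.map (F := fun φ a => (a, f φ a)) ?_ (NPC.Poly.pair (NPC.Poly.snd NPC.Poly.id) hf)
  exact NPC.Poly.filter (p := fun φ a => decide (a < f φ a)) upoly_nv.range
    (NPC.Poly.decide_lt (NPC.Poly.snd NPC.Poly.id) hf)

theorem poly_sg0 : NPC.Poly (fun p : List (NV × NV × NV) × ℕ => sg0 p.1.length p.2) := by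
  unfold sg0 nc
  fun_prop

theorem poly_sg1 : NPC.Poly (fun p : List (NV × NV × NV) × ℕ => sg1 p.1.length p.2) := by
  unfold sg1 nc
  fun_prop

theorem poly_sg2 : NPC.Poly (fun p : List (NV × NV × NV) × ℕ => sg2 (rhoL p.1) p.1.length p.2) := by
  have h : NPC.Poly (fun p : List (NV × NV × NV) × ℕ => rhoL p.1) := poly_rhoL.comp (NPC.Poly.fst NPC.Poly.id)
  unfold sg2 nc
  fun_prop

theorem poly_red : NPC.Poly red := by
  unfold red
  refine NPC.Poly.pair upoly_nv ?_
  exact NPC.Poly.cons (poly_pairs poly_sg0) (NPC.Poly.cons (poly_pairs poly_sg1)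
    (NPC.Poly.cons (poly_pairs (f := fun φ => sg2 (rhoL φ) φ.length) poly_sg2) (NPC.Poly.const [])))

theorem hardI_rationalizable : HardI Rationalizable := hardI_NAE.trans poly_red red_correct

theorem hardI_rationalizable3 : HardI Rationalizable3 := hardI_NAE.trans poly_red red_correct3

end Pool.Agent.Y669.SR
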