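import Mathlib
import Pool.Agent.Y592.OP.NPMem
import Pool.Agent.Y669.SR.Defs

/-!
# SR-RATIONALIZABILITY is in NP
-/

set_option autoImplicit false

namespace Pool.Agent.Y669.SR

open Pool.Agent.NPC

/-- an input -/
abbrev Inp : Type := List Unit × List (List (ℕ × ℕ))

/-- the rank of `b` in the list of `a` -/
def rkw (w : List (List ℕ)) (a b : ℕ) : ℕ := (w.getD a []).getD b 0

/-- `a` wants `b`, as a test -/
def Ww (w : List (List ℕ)) (M : List (ℕ × ℕ)) (a b : ℕ) : Prop :=
  ∀ p ∈ M, (p.1 ≠ a ∨ rkw w a b < rkw w a p.2) ∧ (p.2 ≠ a ∨ rkw w a b < rkw w a p.1)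

/-- the test -/
def Test (x : Inp × List (List ℕ)) : Prop :=
  (∀ M ∈ x.1.2, (∀ p ∈ M, p.1 < x.1.1.length ∧ p.2 < x.1.1.length) ∧
    (M.flatMap fun p => [p.1, p.2]).Nodup) ∧
  (∀ a ∈ List.range x.1.1.length, ∀ b ∈ List.range x.1.1.length,
    ∀ c ∈ List.range x.1.1.length, b = a ∨ c = a ∨ b = c ∨ rkw x.2 a b ≠ rkw x.2 a c) ∧
  ∀ M ∈ x.1.2, ∀ a ∈ List.range x.1.1.length, ∀ b ∈ List.range x.1.1.length,
    a = b ∨ ((a, b) ∈ M ∨ (b, a) ∈ M) ∨ ¬ (Ww x.2 M a b ∧ Ww x.2 M b a)

theorem of_test {x : Inp} {w : List (List ℕ)} (h : Test (x, w)) : Rationalizable x := by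
  obtain ⟨h1, h2, h3⟩ := h
  refine ⟨h1, ⟨⟨fun a b c => rkw w a b < rkw w a c, fun a b _ => lt_irrefl _,
    fun a b c d _ _ _ k1 k2 => lt_trans k1 k2, fun a b c hb hc hbc => ?_⟩, ?_⟩⟩
  · have := h2 a (List.mem_range.2 a.2) b (List.mem_range.2 b.2) c (List.mem_range.2 c.2)
    rcases this with k | k | k | k
    · exact absurd (Fin.ext k) hb
    · exact absurd (Fin.ext k) hc
    · exact absurd (Fin.ext k) hbc
    · simp only at k
      omega
  · intro M hM a b hab hnj hw
    have hM1 := (h1 M hM).1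
    rcases h3 M hM a (List.mem_range.2 a.2) b (List.mem_range.2 b.2) with k | k | k
    · exact hab (Fin.ext k)
    · exact hnj k
    · apply k
      refine ⟨?_, ?_⟩
      · intro p hp
        refine ⟨?_, ?_⟩
        · by_cases e : p.1 = a
          · right
            refine hw.1 ⟨p.2, (hM1 p hp).2⟩ (Or.inl ?_)
            simp only
            rw [← e]
            exact hp
          · exact Or.inl e
        · by_cases e : p.2 = a
          · right
            refine hw.1 ⟨p.1, (hM1 p hp).1⟩ (Or.inr ?_)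
            simp only
            rw [← e]
            exact hp
          · exact Or.inl e
      · intro p hp
        refine ⟨?_, ?_⟩
        · by_cases e : p.1 = b
          · right
            refine hw.2 ⟨p.2, (hM1 p hp).2⟩ (Or.inl ?_)
            simp only
            rw [← e]
            exact hp
          · exact Or.inl e
        · by_cases e : p.2 = b
          · right
            refine hw.2 ⟨p.1, (hM1 p hp).1⟩ (Or.inr ?_)
            simp only
            rw [← e]
            exact hp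
          · exact Or.inl e

open Classical in
/-- the number of the agents preferred by `a` to `b` -/
noncomputable def cnt {n : ℕ} (I : Inst n) (a b : Fin n) : ℕ :=
  (Finset.univ.filter (fun c => c ≠ a ∧ I.prefers a c b)).card

theorem cnt_lt {n : ℕ} (I : Inst n) {a b c : Fin n} (hb : b ≠ a) (hc : c ≠ a)
    (h : I.prefers a b c) : cnt I a b < cnt I a c := by
  classical
  unfold cnt
  apply Finset.card_lt_card
  rw [Finset.ssubset_iff_of_subset]
  · refine ⟨b, ?_, ?_⟩
    · rw [Finset.mem_filter]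
      exact ⟨Finset.mem_univ _, hb, h⟩
    · rw [Finset.mem_filter]
      rintro ⟨-, -, h'⟩
      exact I.irrefl a b hb h'
  · intro d hd
    rw [Finset.mem_filter] at hd ⊢
    exact ⟨Finset.mem_univ _, hd.2.1, I.trans a d b c hd.2.1 hb hc hd.2.2 h⟩

theorem cnt_lt_iff {n : ℕ} (I : Inst n) {a b c : Fin n} (hb : b ≠ a) (hc : c ≠ a) :
    cnt I a b < cnt I a c ↔ I.prefers a b c := by
  constructor
  · intro h
    by_cases hbc : b = c
    · rw [hbc] at h
      exact absurd h (lt_irrefl _)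
    · rcases I.total a b c hb hc hbc with h' | h'
      · exact h'
      · have := cnt_lt I hc hb h'
        omega
  · exact cnt_lt I hb hc

theorem cnt_le {n : ℕ} (I : Inst n) (a b : Fin n) : cnt I a b ≤ n := by
  classical
  unfold cnt
  exact (Finset.card_filter_le _ _).trans (by simp)

/-- the certificate -/
noncomputable def cert {n : ℕ} (I : Inst n) : List (List ℕ) :=
  (List.range n).map fun a => (List.range n).map fun b =>
    if h : a < n ∧ b < n then cnt I ⟨a, h.1⟩ ⟨b, h.2⟩ else 0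

theorem rkw_cert {n : ℕ} (I : Inst n) (a b : Fin n) : rkw (cert I) a b = cnt I a b := by
  unfold rkw cert
  have h : (a : ℕ) < n ∧ (b : ℕ) < n := ⟨a.2, b.2⟩
  simp [List.getD_eq_getElem?_getD]

theorem cert_size {n : ℕ} (I : Inst n) : sz (cert I) ≤ n * (n * (8 * n + 4) + 2) + 1 := by
  have hnum : ∀ k : ℕ, k ≤ n → sz k ≤ 8 * n + 2 := by
    intro k hk
    have h1 := sz_nat_mono_le hk
    have h2 := sz_nat_le n
    have h3 : n.size ≤ n := Nat.size_le.2 Nat.lt_two_pow_self
    omega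
  have h1 := sz_le_length_mul (cert I) (n * (8 * n + 3) + 1) (by
    intro row hrow
    unfold cert at hrow
    rw [List.mem_map] at hrow
    obtain ⟨a, -, rfl⟩ := hrow
    have h2 := sz_le_length_mul ((List.range n).map fun b =>
      if h : a < n ∧ b < n then cnt I ⟨a, h.1⟩ ⟨b, h.2⟩ else 0) (8 * n + 2) (by
        intro k hk
        rw [List.mem_map] at hk
        obtain ⟨b, -, rfl⟩ := hk
        apply hnum
        split_ifs
        · exact cnt_le _ _ _
        · exact Nat.zero_le _)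
    rw [List.length_map, List.length_range] at h2
    refine h2.trans (le_of_eq (by ring)))
  have hl : (cert I).length = n := by simp [cert]
  rw [hl] at h1
  refine h1.trans ?_
  have : n * (n * (8 * n + 3) + 1 + 1) ≤ n * (n * (8 * n + 4) + 2) :=
    Nat.mul_le_mul_left _ (by nlinarith)
  omega

theorem test_cert {x : Inp} (h1 : ∀ M ∈ x.2, IsMatching x.1.length M) (I : Inst x.1.length)
    (hI : ∀ M ∈ x.2, I.Stable M) : Test (x, cert I) := by
  refine ⟨h1, ?_, ?_⟩
  · intro a ha b hb c hc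
    rw [List.mem_range] at ha hb hc
    by_cases e1 : b = a
    · exact Or.inl e1
    by_cases e2 : c = a
    · exact Or.inr (Or.inl e2)
    by_cases e3 : b = c
    · exact Or.inr (Or.inr (Or.inl e3))
    right; right; right
    have k1 := rkw_cert I ⟨a, ha⟩ ⟨b, hb⟩
    have k2 := rkw_cert I ⟨a, ha⟩ ⟨c, hc⟩
    simp only at k1 k2 ⊢
    rw [k1, k2]
    have n1 : (⟨b, hb⟩ : Fin x.1.length) ≠ ⟨a, ha⟩ := fun h => e1 (congrArg Fin.val h)
    have n2 : (⟨c, hc⟩ : Fin x.1.length) ≠ ⟨a, ha⟩ := fun h => e2 (congrArg Fin.val h)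
    have n3 : (⟨b, hb⟩ : Fin x.1.length) ≠ ⟨c, hc⟩ := fun h => e3 (congrArg Fin.val h)
    rcases I.total _ _ _ n1 n2 n3 with h | h
    · exact (cnt_lt I n1 n2 h).ne
    · exact (cnt_lt I n2 n1 h).ne'
  · intro M hM a ha b hb
    rw [List.mem_range] at ha hb
    simp only at ha hb ⊢
    by_cases e1 : a = b
    · exact Or.inl e1
    by_cases e2 : (a, b) ∈ M ∨ (b, a) ∈ M
    · exact Or.inr (Or.inl e2)
    right; right
    rintro ⟨w1, w2⟩
    have hne : (⟨a, ha⟩ : Fin x.1.length) ≠ ⟨b, hb⟩ := fun h => e1 (congrArg Fin.val h)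
    have hM1 := h1 M hM
    have hself : ∀ c d : ℕ, Joined M c d → c ≠ d := by
      have key : ∀ c : ℕ, (c, c) ∉ M := by
        intro c hc
        have hnd := hM1.2
        rw [List.nodup_flatMap] at hnd
        have := hnd.1 _ hc
        simp at this
      rintro c d (h | h) rfl
      · exact key c h
      · exact key c h
    have hwant : ∀ (a b : Fin x.1.length), a ≠ b → Ww (cert I) M a b → I.Wants M a b := by
      intro a b hab hw c hc
      have hca : c ≠ a := fun h => hself a c hc (congrArg Fin.val h.symm)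
      rw [← cnt_lt_iff I hab.symm hca, ← rkw_cert, ← rkw_cert]
      rcases hc with hc | hc
      · rcases (hw _ hc).1 with h | h
        · exact absurd rfl h
        · exact h
      · rcases (hw _ hc).2 with h | h
        · exact absurd rfl h
        · exact h
    exact hI M hM ⟨a, ha⟩ ⟨b, hb⟩ hne e2 ⟨hwant _ _ hne w1, hwant _ _ hne.symm w2⟩

theorem rkw_poly {α : Type} [TEnc α] {w : α → List (List ℕ)} {a b : α → ℕ} (hw : NPC.Poly w)
    (ha : NPC.Poly a) (hb : NPC.Poly b) : NPC.Poly (fun x => rkw (w x) (a x) (b x)) := by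
  unfold rkw
  fun_prop

theorem pp_Ww {α : Type} [TEnc α] {w : α → List (List ℕ)} {M : α → List (ℕ × ℕ)} {a b : α → ℕ}
    (hw : NPC.Poly w) (hM : NPC.Poly M) (ha : NPC.Poly a) (hb : NPC.Poly b) :
    PP (fun x => Ww (w x) (M x) (a x) (b x)) := by
  unfold Ww
  refine PP.ball (r := fun (x : α) (p : ℕ × ℕ) => (p.1 ≠ a x ∨ rkw (w x) (a x) (b x) <
    rkw (w x) (a x) p.2) ∧ (p.2 ≠ a x ∨ rkw (w x) (a x) (b x) < rkw (w x) (a x) p.1)) hM ?_
  refine PP.and (PP.or (PP.ne ?_ ?_) (PP.lt (rkw_poly ?_ ?_ ?_) (rkw_poly ?_ ?_ ?_)))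
    (PP.or (PP.ne ?_ ?_) (PP.lt (rkw_poly ?_ ?_ ?_) (rkw_poly ?_ ?_ ?_))) <;> fun_prop

theorem pp_test : PP Test := by
  have hr : ∀ {α : Type} [TEnc α] {l : α → List Unit}, NPC.Poly l →
      NPC.Poly (fun a => List.range (l a).length) := fun hl => NPC.Poly.range_length hl
  unfold Test
  refine PP.and ?_ (PP.and ?_ ?_)
  · refine PP.ball (l := fun x : Inp × List (List ℕ) => x.1.2)
      (r := fun (x : Inp × List (List ℕ)) (M : List (ℕ × ℕ)) =>
        (∀ p ∈ M, p.1 < x.1.1.length ∧ p.2 < x.1.1.length) ∧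
        (M.flatMap fun p => [p.1, p.2]).Nodup) (by fun_prop) ?_
    refine PP.and ?_ (Pool.Agent.Y592.OP.pp_nodup (by fun_prop))
    refine PP.ball (l := fun y : (Inp × List (List ℕ)) × List (ℕ × ℕ) => y.2)
      (r := fun (y : (Inp × List (List ℕ)) × List (ℕ × ℕ)) (p : ℕ × ℕ) =>
        p.1 < y.1.1.1.length ∧ p.2 < y.1.1.1.length) (by fun_prop) ?_
    exact PP.and (PP.lt (by fun_prop) (by fun_prop)) (PP.lt (by fun_prop) (by fun_prop))
  · refine PP.ball (l := fun x : Inp × List (List ℕ) => List.range x.1.1.length)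
      (r := fun (x : Inp × List (List ℕ)) (a : ℕ) => ∀ b ∈ List.range x.1.1.length,
        ∀ c ∈ List.range x.1.1.length, b = a ∨ c = a ∨ b = c ∨ rkw x.2 a b ≠ rkw x.2 a c)
      (hr (by fun_prop)) ?_
    refine PP.ball (l := fun y : (Inp × List (List ℕ)) × ℕ => List.range y.1.1.1.length)
      (r := fun (y : (Inp × List (List ℕ)) × ℕ) (b : ℕ) =>
        ∀ c ∈ List.range y.1.1.1.length, b = y.2 ∨ c = y.2 ∨ b = c ∨
          rkw y.1.2 y.2 b ≠ rkw y.1.2 y.2 c)
      (hr (by fun_prop)) ?_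
    refine PP.ball (l := fun z : ((Inp × List (List ℕ)) × ℕ) × ℕ => List.range z.1.1.1.1.length)
      (r := fun (z : ((Inp × List (List ℕ)) × ℕ) × ℕ) (c : ℕ) =>
        z.2 = z.1.2 ∨ c = z.1.2 ∨ z.2 = c ∨ rkw z.1.1.2 z.1.2 z.2 ≠ rkw z.1.1.2 z.1.2 c)
      (hr (by fun_prop)) ?_
    exact PP.or (PP.eq (by fun_prop) (by fun_prop)) (PP.or (PP.eq (by fun_prop) (by fun_prop))
      (PP.or (PP.eq (by fun_prop) (by fun_prop)) (PP.ne
        (rkw_poly (by fun_prop) (by fun_prop) (by fun_prop))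
        (rkw_poly (by fun_prop) (by fun_prop) (by fun_prop)))))
  · refine PP.ball (l := fun x : Inp × List (List ℕ) => x.1.2)
      (r := fun (x : Inp × List (List ℕ)) (M : List (ℕ × ℕ)) =>
        ∀ a ∈ List.range x.1.1.length, ∀ b ∈ List.range x.1.1.length,
          a = b ∨ ((a, b) ∈ M ∨ (b, a) ∈ M) ∨ ¬ (Ww x.2 M a b ∧ Ww x.2 M b a)) (by fun_prop) ?_
    refine PP.ball (l := fun y : (Inp × List (List ℕ)) × List (ℕ × ℕ) =>
        List.range y.1.1.1.length)
      (r := fun (y : (Inp × List (List ℕ)) × List (ℕ × ℕ)) (a : ℕ) =>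
        ∀ b ∈ List.range y.1.1.1.length,
          a = b ∨ ((a, b) ∈ y.2 ∨ (b, a) ∈ y.2) ∨ ¬ (Ww y.1.2 y.2 a b ∧ Ww y.1.2 y.2 b a))
      (hr (by fun_prop)) ?_
    refine PP.ball (l := fun z : ((Inp × List (List ℕ)) × List (ℕ × ℕ)) × ℕ =>
        List.range z.1.1.1.1.length)
      (r := fun (z : ((Inp × List (List ℕ)) × List (ℕ × ℕ)) × ℕ) (b : ℕ) =>
        z.2 = b ∨ ((z.2, b) ∈ z.1.2 ∨ (b, z.2) ∈ z.1.2) ∨
          ¬ (Ww z.1.1.2 z.1.2 z.2 b ∧ Ww z.1.1.2 z.1.2 b z.2))
      (hr (by fun_prop)) ?_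
    refine PP.or (PP.eq (by fun_prop) (by fun_prop)) (PP.or (PP.or (PP.mem (by fun_prop)
      (by fun_prop)) (PP.mem (by fun_prop) (by fun_prop))) (PP.not (PP.and ?_ ?_)))
    · exact pp_Ww (by fun_prop) (by fun_prop) (by fun_prop) (by fun_prop)
    · exact pp_Ww (by fun_prop) (by fun_prop) (by fun_prop) (by fun_prop)

theorem length_le_sz (l : List Unit) : l.length ≤ sz l := by
  induction l with
  | nil => simp
  | cons a l ih =>
    rw [List.length_cons, sz_list_cons]
    omega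

/-- a predicate decidable in polynomial time and SR-RATIONALIZABILITY -/
theorem inNPP_and {C : Inp → Prop} (hC : PP C) : InNPP (fun x : Inp => C x ∧ Rationalizable x) := by
  have h0 : PP (fun y : Inp × List (List ℕ) => C y.1 ∧ Test y) :=
    PP.and (hC.comp (by fun_prop)) pp_test
  obtain ⟨R, hR, hR'⟩ := h0
  refine inNPP_of (β := List (List ℕ)) hR
    (Polynomial.X * (Polynomial.X * (8 * Polynomial.X + 4) + 2) + 1) (fun x => ⟨?_, ?_⟩)
  · rintro ⟨hCx, h1, I, hI⟩
    refine ⟨cert I, ?_, (hR' _).2 ⟨hCx, test_cert h1 I hI⟩⟩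
    refine (cert_size I).trans ?_
    have h2 : x.1.length ≤ sz x := by
      have h3 := length_le_sz x.1
      have h4 : sz x = sz x.1 + sz x.2 + 1 := sz_pair x.1 x.2
      omega
    simp only [Polynomial.eval_add, Polynomial.eval_mul, Polynomial.eval_X,
      Polynomial.eval_one, Polynomial.eval_ofNat]
    gcongr
  · rintro ⟨w, -, hw⟩
    obtain ⟨h1, h2⟩ := (hR' _).1 hw
    exact ⟨h1, of_test h2⟩

theorem inNPP_rationalizable : InNPP Rationalizable := by
  have h := inNPP_and (C := fun _ => True) (PP.bool (b := fun _ : Inp => true)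
    (NPC.Poly.const true) |>.congr (fun _ => by simp))
  have e : (fun x : Inp => True ∧ Rationalizable x) = Rationalizable := by
    funext x
    simp
  rw [e] at h
  exact h

end Pool.Agent.Y669.SR
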