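import Mathlib
import Pool.Agent.Y669.SR.Mem

/-!
# SR-RATIONALIZABILITY for three disjoint perfect matchings is in NP
-/

set_option autoImplicit false

namespace Pool.Agent.Y669.SR

open Pool.Agent.NPC

/-- a test for matchings -/
def MTest (n : ℕ) (M : List (ℕ × ℕ)) : Prop :=
  ((∀ p ∈ M, p.1 < n ∧ p.2 < n) ∧ (M.flatMap fun p => [p.1, p.2]).Nodup) ∧
    ∀ a ∈ List.range n, ∃ p ∈ M, p.1 = a ∨ p.2 = a

theorem mTest_iff (n : ℕ) (M : List (ℕ × ℕ)) : MTest n M ↔ IsMatching n M ∧ Perfect n M := by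
  unfold MTest IsMatching Perfect Joined
  refine and_congr Iff.rfl ⟨?_, ?_⟩
  · intro h a ha
    obtain ⟨p, hp, e | e⟩ := h a (List.mem_range.2 ha)
    · exact ⟨p.2, Or.inl (by rw [← e]; exact hp)⟩
    · exact ⟨p.1, Or.inr (by rw [← e]; exact hp)⟩
  · intro h a ha
    obtain ⟨b, hb | hb⟩ := h a (List.mem_range.1 ha)
    · exact ⟨_, hb, Or.inl rfl⟩
    · exact ⟨_, hb, Or.inr rfl⟩

/-- a test for pairs in common -/
def DTest (M M' : List (ℕ × ℕ)) : Prop := ∀ p ∈ M, p ∉ M' ∧ (p.2, p.1) ∉ M'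

theorem dTest_iff (M M' : List (ℕ × ℕ)) : DTest M M' ↔ NoCommonPair M M' := by
  unfold DTest NoCommonPair Joined
  constructor
  · rintro h a b (h1 | h1) (h2 | h2)
    · exact (h _ h1).1 h2
    · exact (h _ h1).2 h2
    · exact (h _ h1).2 h2
    · exact (h _ h1).1 h2
  · intro h p hp
    exact ⟨fun h' => h p.1 p.2 (Or.inl hp) (Or.inl h'), fun h' => h p.1 p.2 (Or.inl hp) (Or.inr h')⟩

theorem threePerfect_iff (x : Inp) : ThreePerfect x ↔ x.2.length = 3 ∧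
    (∀ M ∈ x.2, MTest x.1.length M) ∧ DTest (x.2.getD 0 []) (x.2.getD 1 []) ∧
      DTest (x.2.getD 0 []) (x.2.getD 2 []) ∧ DTest (x.2.getD 1 []) (x.2.getD 2 []) := by
  simp only [mTest_iff, dTest_iff]
  constructor
  · rintro ⟨M₁, M₂, M₃, h, h1, h2, h3, h4⟩
    refine ⟨by rw [h]; rfl, h1, ?_⟩
    rw [h]
    exact ⟨h2, h3, h4⟩
  · rintro ⟨h, h1, h2, h3, h4⟩
    obtain ⟨M₁, M₂, M₃, h5⟩ := List.length_eq_three.1 h
    rw [h5] at h2 h3 h4
    exact ⟨M₁, M₂, M₃, h5, h1, h2, h3, h4⟩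

theorem pp_dTest {α : Type} [TEnc α] {M M' : α → List (ℕ × ℕ)} (hM : NPC.Poly M)
    (hM' : NPC.Poly M') : PP (fun a => DTest (M a) (M' a)) := by
  unfold DTest
  refine PP.ball (r := fun (a : α) (p : ℕ × ℕ) => p ∉ M' a ∧ (p.2, p.1) ∉ M' a) hM ?_
  exact PP.and (PP.not (PP.mem (by fun_prop) (by fun_prop)))
    (PP.not (PP.mem (by fun_prop) (by fun_prop)))

theorem pp_mTest {α : Type} [TEnc α] {l : α → List Unit} {M : α → List (ℕ × ℕ)}
    (hl : NPC.Poly l) (hM : NPC.Poly M) : PP (fun a => MTest (l a).length (M a)) := by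
  unfold MTest
  refine PP.and (PP.and ?_ (Pool.Agent.Y592.OP.pp_nodup (by fun_prop))) ?_
  · refine PP.ball (r := fun (a : α) (p : ℕ × ℕ) => p.1 < (l a).length ∧ p.2 < (l a).length) hM ?_
    exact PP.and (PP.lt (by fun_prop) (by fun_prop)) (PP.lt (by fun_prop) (by fun_prop))
  · refine PP.ball (l := fun a => List.range (l a).length)
      (r := fun (a : α) (b : ℕ) => ∃ p ∈ M a, p.1 = b ∨ p.2 = b) (NPC.Poly.range_length hl) ?_
    refine PP.bex (l := fun y : α × ℕ => M y.1)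
      (r := fun (y : α × ℕ) (p : ℕ × ℕ) => p.1 = y.2 ∨ p.2 = y.2) (by fun_prop) ?_
    exact PP.or (PP.eq (by fun_prop) (by fun_prop)) (PP.eq (by fun_prop) (by fun_prop))

theorem pp_three : PP ThreePerfect := by
  refine PP.congr (p := fun x : Inp => x.2.length = 3 ∧
    (∀ M ∈ x.2, MTest x.1.length M) ∧ DTest (x.2.getD 0 []) (x.2.getD 1 []) ∧
      DTest (x.2.getD 0 []) (x.2.getD 2 []) ∧ DTest (x.2.getD 1 []) (x.2.getD 2 [])) ?_
    (fun x => (threePerfect_iff x).symm)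
  refine PP.and (PP.eq (by fun_prop) (by fun_prop)) (PP.and ?_ (PP.and ?_ (PP.and ?_ ?_)))
  · refine PP.ball (l := fun x : Inp => x.2)
      (r := fun (x : Inp) (M : List (ℕ × ℕ)) => MTest x.1.length M) (by fun_prop) ?_
    exact pp_mTest (l := fun y : Inp × List (ℕ × ℕ) => y.1.1) (by fun_prop) (by fun_prop)
  · exact pp_dTest (by fun_prop) (by fun_prop)
  · exact pp_dTest (by fun_prop) (by fun_prop)
  · exact pp_dTest (by fun_prop) (by fun_prop)

theorem inNPP_rationalizable3 : InNPP Rationalizable3 := inNPP_and pp_three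

end Pool.Agent.Y669.SR
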