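import Mathlib
import Pool.Agent.Y669.SR.Defs

/-!
# Two perfect matchings are always rationalizable
-/

set_option autoImplicit false

namespace Pool.Agent.Y669.SR

/-- The union of two perfect matchings is bipartite. -/
theorem exists_colouring {n : ℕ} (s t : Fin n → Fin n) (hs : ∀ a, s (s a) = a)
    (ht : ∀ a, t (t a) = a) (hs' : ∀ a, s a ≠ a) (ht' : ∀ a, t a ≠ a) :
    ∃ x : Fin n → Bool, ∀ a, x (s a) = !x a ∧ x (t a) = !x a := by
  classical
  let S : Equiv.Perm (Fin n) := ⟨s, s, hs, hs⟩
  let T : Equiv.Perm (Fin n) := ⟨t, t, ht, ht⟩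
  let u : Equiv.Perm (Fin n) := S * T
  have hSS : S * S = 1 := Equiv.ext fun a => hs a
  have hTT : T * T = 1 := Equiv.ext fun a => ht a
  have hSi : S⁻¹ = S := inv_eq_of_mul_eq_one_left hSS
  have hTi : T⁻¹ = T := inv_eq_of_mul_eq_one_left hTT
  have hT : T = S * u := by
    change T = S * (S * T)
    rw [← mul_assoc, hSS, one_mul]
  have hui : S * u * S⁻¹ = u⁻¹ := by
    change S * (S * T) * S⁻¹ = (S * T)⁻¹
    rw [mul_inv_rev, hTi, hSi, ← mul_assoc, hSS, one_mul]
  have hconj : ∀ k : ℤ, S * u ^ k = u ^ (-k) * S := by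
    intro k
    have h1 : S * u ^ k * S⁻¹ = (u⁻¹) ^ k := by
      rw [← conj_zpow, hui]
    rw [inv_zpow, ← zpow_neg] at h1
    rw [← h1, mul_assoc, mul_assoc, inv_mul_cancel, mul_one]
  have hconj' : ∀ (k : ℤ) (a : Fin n), s ((u ^ k) a) = (u ^ (-k)) (s a) := by
    intro k a
    have := congrArg (fun f : Equiv.Perm (Fin n) => f a) (hconj k)
    exact this
  -- the partner is not in the same cycle
  have key : ∀ a, ¬ u.SameCycle a (s a) := by
    rintro a ⟨k, hk⟩
    rcases Int.even_or_odd' k with ⟨j, hj | hj⟩
    · apply hs' ((u ^ j) a)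
      rw [hconj', ← hk, hj, ← Equiv.Perm.mul_apply, ← zpow_add]
      congr 2
      ring
    · apply ht' ((u ^ j) a)
      have h1 : t ((u ^ j) a) = s ((u ^ (j + 1)) a) := by
        have := congrArg (fun f : Equiv.Perm (Fin n) => f ((u ^ j) a)) hT
        change t ((u ^ j) a) = s (u ((u ^ j) a)) at this
        rw [this, ← Equiv.Perm.mul_apply u, ← zpow_one_add, add_comm]
      rw [h1, hconj', ← hk, hj, ← Equiv.Perm.mul_apply, ← zpow_add]
      congr 2
      ring
  let r : Fin n → Fin n := fun a =>
    (Quotient.out (Quotient.mk (Equiv.Perm.SameCycle.setoid u) a) : Fin n)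
  have hr : ∀ a b, u.SameCycle a b → r a = r b := by
    intro a b h
    have : Quotient.mk (Equiv.Perm.SameCycle.setoid u) a =
        Quotient.mk (Equiv.Perm.SameCycle.setoid u) b := Quotient.sound h
    simp only [r, this]
  have hr' : ∀ a b, r a = r b → u.SameCycle a b := by
    intro a b h
    have h1 : Quotient.mk (Equiv.Perm.SameCycle.setoid u) a =
        Quotient.mk (Equiv.Perm.SameCycle.setoid u) b := by
      have h2 := congrArg (Quotient.mk (Equiv.Perm.SameCycle.setoid u)) h
      simp only [r, Quotient.out_eq] at h2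
      exact h2
    exact Quotient.exact h1
  have hne : ∀ a, r a ≠ r (s a) := fun a h => key a (hr' _ _ h)
  have hrs : ∀ a b, u.SameCycle a b → u.SameCycle (s a) (s b) := by
    rintro a b ⟨k, hk⟩
    exact ⟨-k, by rw [← hconj', hk]⟩
  have hta : ∀ a, r (t a) = r (s a) ∧ r (s (t a)) = r a := by
    intro a
    have h1 : u.SameCycle a (s (t a)) := ⟨1, by rw [zpow_one]; rfl⟩
    refine ⟨?_, (hr _ _ h1).symm⟩
    have h2 := hrs _ _ h1
    rw [hs] at h2
    exact (hr _ _ h2).symm
  refine ⟨fun a => decide (r a < r (s a)), fun a => ⟨?_, ?_⟩⟩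
  · simp only [hs]
    have h1 := hne a
    rcases lt_or_gt_of_ne h1 with h | h
    · simp [h, h.le]
    · simp [h, h.le]
  · simp only [(hta a).1, (hta a).2]
    have h1 := hne a
    rcases lt_or_gt_of_ne h1 with h | h
    · simp [h, h.le]
    · simp [h, h.le]

theorem joined_unique {n : ℕ} {M : List (ℕ × ℕ)} (hM : IsMatching n M) {a b c : ℕ}
    (hb : Joined M a b) (hc : Joined M a c) : b = c := by
  have hnd := hM.2
  rw [List.nodup_flatMap] at hnd
  obtain ⟨h1, h2⟩ := hnd
  have hself : ∀ d : ℕ, (d, d) ∉ M := by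
    intro d hd
    have := h1 _ hd
    simp at this
  have hdis : ∀ p ∈ M, ∀ q ∈ M, (∃ e, (e = p.1 ∨ e = p.2) ∧ (e = q.1 ∨ e = q.2)) → p = q := by
    intro p hp q hq ⟨e, he1, he2⟩
    by_contra hpq
    have hsym : Std.Symm (Function.onFun List.Disjoint (fun p : ℕ × ℕ => [p.1, p.2])) :=
      ⟨fun _ _ h => h.symm⟩
    have := List.Pairwise.forall h2 hp hq hpq
    rw [Function.onFun, List.disjoint_left] at this
    exact this (a := e) (by simpa using he1) (by simpa using he2)
  rcases hb with hb | hb <;> rcases hc with hc | hc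
  · have := hdis _ hb _ hc ⟨a, Or.inl rfl, Or.inl rfl⟩
    exact (Prod.mk.inj this).2
  · have := hdis _ hb _ hc ⟨a, Or.inl rfl, Or.inr rfl⟩
    obtain ⟨e1, e2⟩ := Prod.mk.inj this
    rw [e2, e1]
  · have := hdis _ hb _ hc ⟨a, Or.inr rfl, Or.inl rfl⟩
    obtain ⟨e1, e2⟩ := Prod.mk.inj this
    rw [e1, e2]
  · have := hdis _ hb _ hc ⟨a, Or.inr rfl, Or.inr rfl⟩
    exact (Prod.mk.inj this).1

theorem joined_ne {n : ℕ} {M : List (ℕ × ℕ)} (hM : IsMatching n M) {a b : ℕ}
    (h : Joined M a b) : b ≠ a := by
  have hnd := hM.2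
  rw [List.nodup_flatMap] at hnd
  rintro rfl
  rcases h with h | h
  · have := hnd.1 _ h
    simp at this
  · have := hnd.1 _ h
    simp at this

theorem joined_symm {M : List (ℕ × ℕ)} {a b : ℕ} (h : Joined M a b) : Joined M b a :=
  Or.symm h

/-- partners -/
theorem exists_partner {n : ℕ} {M : List (ℕ × ℕ)} (hM : IsMatching n M) (hp : Perfect n M) :
    ∃ s : Fin n → Fin n, (∀ a, s (s a) = a) ∧ (∀ a, s a ≠ a) ∧
      ∀ a b : Fin n, Joined M a b ↔ b = s a := by
  have h : ∀ a : Fin n, ∃ b : Fin n, Joined M a b := by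
    intro a
    obtain ⟨b, hb⟩ := hp a a.2
    have hbn : b < n := by
      rcases hb with hb | hb
      · exact (hM.1 _ hb).2
      · exact (hM.1 _ hb).1
    exact ⟨⟨b, hbn⟩, hb⟩
  choose s hs using h
  have hu : ∀ a b : Fin n, Joined M a b ↔ b = s a := by
    intro a b
    constructor
    · intro hab
      exact Fin.ext (joined_unique hM hab (hs a))
    · rintro rfl
      exact hs a
  refine ⟨s, ?_, ?_, hu⟩
  · intro a
    exact ((hu (s a) a).1 (joined_symm (hs a))).symm
  · intro a h
    exact joined_ne hM (hs a) (congrArg Fin.val h)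

/-- **Two perfect matchings are always rationalizable.** -/
theorem two_perfect (n : ℕ) (M M' : List (ℕ × ℕ)) (hM : IsMatching n M) (hp : Perfect n M)
    (hM' : IsMatching n M') (hp' : Perfect n M') :
    Rationalizable (List.replicate n (), [M, M']) := by
  have hlen : ∀ k, k = n → (∀ L ∈ [M, M'], IsMatching k L) ∧ ∃ I : Inst k, ∀ L ∈ [M, M'], I.Stable L := by
    rintro k rfl
    refine ⟨by simp [hM, hM'], ?_⟩
    obtain ⟨s, hs, hs', hsj⟩ := exists_partner hM hp
    obtain ⟨t, ht, ht', htj⟩ := exists_partner hM' hp'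
    obtain ⟨x, hx⟩ := exists_colouring s t hs ht hs' ht'
    let rk : Fin k → Fin k → ℕ := fun a b =>
      if b = s a then (if x a then 0 else 1) else if b = t a then (if x a then 1 else 0)
      else b + 2
    have hrs : ∀ a, rk a (s a) = if x a then 0 else 1 := fun a => by simp [rk]
    have hinj : ∀ a b c : Fin k, b ≠ c → rk a b ≠ rk a c := by
      intro a b c hbc
      have hbc' : (b : ℕ) ≠ c := fun h => hbc (Fin.ext h)
      simp only [rk]
      cases x a <;> simp only [if_true, if_false, Bool.false_eq_true] <;> split_ifs <;>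
        first
        | omega
        | (exfalso; apply hbc; simp_all)
    refine ⟨⟨fun a b c => rk a b < rk a c, fun a b _ => lt_irrefl _,
      fun a b c d _ _ _ h1 h2 => lt_trans h1 h2, fun a b c _ _ hbc => ?_⟩, ?_⟩
    · have := hinj a b c hbc
      omega
    · intro L hL
      simp only [List.mem_cons, List.not_mem_nil, or_false] at hL
      rcases hL with rfl | rfl
      · intro a b hab hnj hw
        have hbs : b ≠ s a := fun h => hnj ((hsj a b).2 h)
        have has : a ≠ s b := fun h => hnj (joined_symm ((hsj b a).2 h))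
        have w1 : rk a b < rk a (s a) := hw.1 _ ((hsj a _).2 rfl)
        have w2 : rk b a < rk b (s b) := hw.2 _ ((hsj b _).2 rfl)
        have c1 : b = t a ∧ x a = false := by
          rw [hrs] at w1
          simp only [rk, if_neg hbs] at w1
          by_cases h : b = t a
          · refine ⟨h, ?_⟩
            rw [if_pos h] at w1
            cases hx : x a
            · rfl
            · rw [hx] at w1; simp at w1
          · rw [if_neg h] at w1
            split_ifs at w1 <;> omega
        have c2 : x b = false := by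
          rw [hrs] at w2
          simp only [rk, if_neg has] at w2
          by_cases h : a = t b
          · rw [if_pos h] at w2
            cases hx : x b
            · rfl
            · rw [hx] at w2; simp at w2
          · rw [if_neg h] at w2
            split_ifs at w2 <;> omega
        have := (hx a).2
        rw [← c1.1, c1.2, c2] at this
        exact absurd this (by decide)
      · intro a b hab hnj hw
        have hbt : b ≠ t a := fun h => hnj ((htj a b).2 h)
        have hat : a ≠ t b := fun h => hnj (joined_symm ((htj b a).2 h))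
        have w1 : rk a b < rk a (t a) := hw.1 _ ((htj a _).2 rfl)
        have w2 : rk b a < rk b (t b) := hw.2 _ ((htj b _).2 rfl)
        have c0 : ∀ a b : Fin k, b ≠ t a → rk a b < rk a (t a) → b = s a ∧ x a = true := by
          intro a b hbt w1
          simp only [rk, if_neg hbt] at w1
          by_cases h : b = s a
          · refine ⟨h, ?_⟩
            have h2 : t a ≠ s a := fun h' => hbt (h.trans h'.symm)
            rw [if_pos h, if_neg h2] at w1
            cases hx : x a
            · rw [hx] at w1; simp at w1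
            · rfl
          · rw [if_neg h] at w1
            split_ifs at w1 <;> omega
        obtain ⟨d1, d2⟩ := c0 a b hbt w1
        obtain ⟨d3, d4⟩ := c0 b a hat w2
        have := (hx a).1
        rw [← d1, d2, d4] at this
        exact absurd this (by decide)
  exact hlen _ (by simp)

end Pool.Agent.Y669.SR
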